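import Pool.Agent.W944.En.Tree
import Pool.Agent.W966.Mm.RankErr

/-!
# One number: definitions
-/

namespace Pool.Agent.N452.ON

open Pool.Agent.W966.Mm Pool.Agent.W944.En MvPolynomial

/-- The Hessian matrix of the polynomial `g` in the entries of an `n × n` matrix, at the
matrix `C`: its entries are the second partial derivatives of `g` at `C`. -/
noncomputable def hessM {n : ℕ} (g : MvPolynomial (Fin n × Fin n) ℂ)
    (C : Matrix (Fin n) (Fin n) ℂ) : Matrix (Fin n × Fin n) (Fin n × Fin n) ℂ :=
  Matrix.of fun p q => eval (fun r => C r.1 r.2) (pderiv q (pderiv p g))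

/-- The quadratic form `∑ p, ∑ q, c p q * x_p * x_q` in the `n ^ 2` entries `x_p` of an `n × n`
matrix. -/
noncomputable def quad {n : ℕ} (c : Matrix (Fin n × Fin n) (Fin n × Fin n) ℂ) :
    MvPolynomial (Fin n × Fin n) ℂ :=
  ∑ p, ∑ q, C (c p q) * (X p * X q)

/-- The output of the algorithm `t` determines the number `g (A B)`: for some function `dec` (which
need not be computable) all of whose values are countable sets, and for all pairs `A, B` outside
the zero set of some nonzero polynomial, `t` has some possible output, and every possible output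
`o` satisfies `g (A B) ∈ dec o`. Here the possible outputs are those of the outcomes of the random
choices for which `t` makes at most `L` multiplications and divisions, no query and no division
by `0`. -/
def DeterminesNumber {n s : ℕ} (t : ETree ℂ n s) (g : MvPolynomial (Fin n × Fin n) ℂ) (L : ℕ) :
    Prop :=
  ∃ (P : MvPolynomial (Ent n) ℂ) (dec : (Fin s → ℂ) → Set ℂ), P ≠ 0 ∧
    (∀ o, (dec o).Countable) ∧
    ∀ A B : Matrix (Fin n) (Fin n) ℂ, eval (entries A B) P ≠ 0 →
      t.Can A B (fun _ => True) 0 0 L 0 ∧
      ∀ o, t.Can A B (fun o' => o' = o) 0 0 L 0 → eval (fun p => (A * B) p.1 p.2) g ∈ dec o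

/-- The output of the algorithm `t` determines, in the same sense, the `K` numbers
`g 1 (A B), …, g K (A B)`. -/
def DeterminesNumbers {n s K : ℕ} (t : ETree ℂ n s) (g : Fin K → MvPolynomial (Fin n × Fin n) ℂ)
    (L : ℕ) : Prop :=
  ∃ (P : MvPolynomial (Ent n) ℂ) (dec : (Fin s → ℂ) → Set (Fin K → ℂ)), P ≠ 0 ∧
    (∀ o, (dec o).Countable) ∧
    ∀ A B : Matrix (Fin n) (Fin n) ℂ, eval (entries A B) P ≠ 0 →
      t.Can A B (fun _ => True) 0 0 L 0 ∧
      ∀ o, t.Can A B (fun o' => o' = o) 0 0 L 0 →
        (fun u => eval (fun p => (A * B) p.1 p.2) (g u)) ∈ dec o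

/-- The least number of multiplications and divisions with which at most `S` numbers can be
computed that determine the number `g (A B)`. -/
noncomputable def oneCost {n : ℕ} (S : ℕ) (g : MvPolynomial (Fin n × Fin n) ℂ) : ℕ :=
  sInf {L : ℕ | ∃ (s : ℕ) (t : ETree ℂ n s), s ≤ S ∧ DeterminesNumber t g L}

end Pool.Agent.N452.ON
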