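import Pool.Agent.N452.ON.Upper
import Pool.Agent.N590.MS.Steps

/-!
# One number: the final form
-/

set_option linter.unusedSectionVars false

namespace Pool.Agent.N452.ON

open Pool.Agent.W966.Mm Pool.Agent.W944.En Module MvPolynomial
open Pool.Agent.W956.KF (trank growth Superlinear sizeMM)
open Pool.Agent.H826R3.SM (omegaMM)

lemma determinesNumber_iff {n s : ℕ} (t : ETree ℂ n s) (g : MvPolynomial (Fin n × Fin n) ℂ)
    (L : ℕ) : DeterminesNumber t g L ↔ Determines t (fun _ : Fin 1 => g) L := by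
  constructor
  · rintro ⟨P, dec, hP, hdec, H⟩
    refine ⟨P, fun o => (fun z : ℂ => (fun _ : Fin 1 => z)) '' dec o, hP,
      fun o => (hdec o).image _, fun A B hAB => ⟨(H A B hAB).1, fun o ho =>
        ⟨_, (H A B hAB).2 o ho, rfl⟩⟩⟩
  · rintro ⟨P, dec, hP, hdec, H⟩
    exact ⟨P, fun o => (fun v : Fin 1 → ℂ => v 0) '' dec o, hP,
      fun o => (hdec o).image _, fun A B hAB => ⟨(H A B hAB).1, fun o ho =>
        ⟨_, (H A B hAB).2 o ho, rfl⟩⟩⟩

/-- Functions of the determined numbers are determined. -/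
lemma determinesNumber_of {n s K L : ℕ} {t : ETree ℂ n s}
    {g : Fin K → MvPolynomial (Fin n × Fin n) ℂ} (H : Determines t g L)
    (G : MvPolynomial (Fin n × Fin n) ℂ) (Φ : (Fin K → ℂ) → ℂ)
    (hΦ : ∀ C : Matrix (Fin n) (Fin n) ℂ, eval (fun p => C p.1 p.2) G = Φ (vals g C)) :
    DeterminesNumber t G L := by
  obtain ⟨P, dec, hP, hdec, H⟩ := H
  refine ⟨P, fun o => Φ '' dec o, hP, fun o => (hdec o).image _, fun A B hAB =>
    ⟨(H A B hAB).1, fun o ho => ⟨_, (H A B hAB).2 o ho, (hΦ _).symm⟩⟩⟩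

lemma rk_eq (n : ℕ) : Pool.Agent.H515R2.MMR.rk n = trank ℂ n n n := by
  rw [Pool.Agent.W956.KF.trank_eq_rk]
  rfl

/-- **The lower bound.** -/
theorem one_lower {n s L : ℕ} {ε : ℝ} (hε : 0 < ε) {t : ETree ℂ n s}
    {g : MvPolynomial (Fin n × Fin n) ℂ} (H : DeterminesNumber t g L)
    (C₀ : Matrix (Fin n) (Fin n) ℂ)
    (hd : (s : ℝ) + ε * (n : ℝ) ^ 2 ≤ 2 * ((hessM g C₀).rank : ℝ)) :
    (trank ℂ n n n : ℝ) ≤ 6 * (64 / ε ^ 2 + 1) ^ 3 * L := by
  rw [← rk_eq]
  exact one_rk hε t g ((determinesNumber_iff t g L).mp H) C₀ hd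

/-- Algebraically independent polynomials have independent gradients at some point. -/
theorem jac_point {κ : Type} [Fintype κ] {K : ℕ} (g : Fin K → MvPolynomial κ ℂ)
    (hg : AlgebraicIndependent ℂ g) : ∃ (z : κ → ℂ) (J' : Matrix κ (Fin K) ℂ),
      (Matrix.of fun (u : Fin K) (p : κ) => eval z (pderiv p (g u))) * J' = 1 := by
  classical
  choose S3 hS3 hS3' using fun u => poly_desc (g u)
  set k : Subfield ℂ := Subfield.closure (⋃ u, S3 u) with hk
  have hkc : Countable k := by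
    rw [← Cardinal.mk_le_aleph0_iff]
    refine (Subfield.cardinalMk_closure_le_max _).trans (max_le ?_ le_rfl)
    rw [Cardinal.mk_le_aleph0_iff]
    exact (Set.countable_iUnion hS3).to_subtype
  have hsub : ⋃ u, S3 u ⊆ (k : Set ℂ) := Subfield.subset_closure
  choose g0 hg0 using fun u => hS3' u k fun x hx => hsub (Set.mem_iUnion.mpr ⟨u, hx⟩)
  obtain ⟨z, hz⟩ := exists_indep k κ
  set y : Fin K → ℂ := fun u => aeval z (g0 u) with hy
  have hyind : AlgebraicIndependent k y := by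
    rw [algebraicIndependent_iff]
    intro G hG
    have e1 : aeval y G = aeval z (aeval g0 G) := by
      have e2 : (aeval y : MvPolynomial (Fin K) k →ₐ[k] ℂ) = (aeval z).comp (aeval g0) := by
        refine MvPolynomial.algHom_ext fun u => ?_
        simp only [AlgHom.comp_apply, aeval_X, hy]
      rw [e2]
      rfl
    rw [e1] at hG
    have h2 : aeval g0 G = 0 := hz (hG.trans (map_zero _).symm)
    have h3 : aeval g (MvPolynomial.map k.subtype G) = MvPolynomial.map k.subtype (aeval g0 G) := by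
      have e4 : ((aeval g : MvPolynomial (Fin K) ℂ →ₐ[ℂ] _).toRingHom.comp
          (MvPolynomial.map k.subtype)) = (MvPolynomial.map k.subtype).comp
          (aeval g0 : MvPolynomial (Fin K) k →ₐ[k] _).toRingHom := by
        refine MvPolynomial.ringHom_ext (fun c => ?_) (fun i => ?_)
        · simp
        · simp [hg0]
      exact RingHom.congr_fun e4 G
    rw [h2, map_zero] at h3
    have h4 : MvPolynomial.map k.subtype G = 0 := hg (h3.trans (map_zero _).symm)
    exact MvPolynomial.map_injective k.subtype k.subtype.injective (h4.trans (map_zero _).symm)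
  choose D' hD' hD'c hD'z using exists_der hyind
  refine ⟨z, Matrix.of fun p v => D' v (z p), Matrix.ext fun u v => ?_⟩
  have e1 := chain (fun _ : Unit => D' v) (fun _ => hD' v) (algebraMap k ℂ)
    (fun _ c => hD'c v c) (fun _ c => hD'c v c) z (g0 u) ()
  have e2 : D' v (aeval z (g0 u)) = if u = v then 1 else 0 := hD'z v u
  rw [e2] at e1
  rw [Matrix.mul_apply, Matrix.one_apply, e1]
  refine Finset.sum_congr rfl fun p _ => ?_
  rw [Matrix.of_apply, Matrix.of_apply, ← hg0, pderiv_map, eval_map]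
  rfl

/-- **Several polynomials.** -/
theorem several {n s K L : ℕ} {ε : ℝ} (hε : 0 < ε) {t : ETree ℂ n s}
    {g : Fin K → MvPolynomial (Fin n × Fin n) ℂ} (hg : AlgebraicIndependent ℂ g)
    (H : DeterminesNumbers t g L) (hd : (s : ℝ) + ε * (n : ℝ) ^ 2 ≤ 2 * (K : ℝ)) :
    (trank ℂ n n n : ℝ) ≤ 6 * (64 / ε ^ 2 + 1) ^ 3 * L := by
  classical
  obtain ⟨z, J', hJ⟩ := jac_point g hg
  set J : Matrix (Fin K) (Fin n × Fin n) ℂ :=
    Matrix.of fun (u : Fin K) (p : Fin n × Fin n) => eval z (pderiv p (g u)) with hJd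
  set C₀ : Matrix (Fin n) (Fin n) ℂ := Matrix.of fun i j => z (i, j) with hC₀
  have hCz : (fun r : Fin n × Fin n => C₀ r.1 r.2) = z := rfl
  set a : Fin K → ℂ := fun u => eval z (g u) with ha
  let G : MvPolynomial (Fin n × Fin n) ℂ := ∑ u, (g u - C (a u)) ^ 2
  have hG : DeterminesNumber t G L := by
    refine determinesNumber_of (g := g) H G (fun v => ∑ u, (v u - a u) ^ 2) fun C => ?_
    simp only [G, map_sum, map_pow, map_sub, eval_C]
    rfl
  have hH : hessM G C₀ = (2 : ℂ) • (J.transpose * J) := by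
    refine Matrix.ext fun p q => ?_
    have e1 : ∀ u, eval z (pderiv q (pderiv p ((g u - C (a u)) ^ 2))) = 2 * (J u p * J u q) := by
      intro u
      rw [pderiv_pow, map_sub, pderiv_C, sub_zero]
      rw [pderiv_mul, pderiv_mul]
      have e2 : pderiv q ((2 : ℕ) : MvPolynomial (Fin n × Fin n) ℂ) = 0 := by
        rw [← map_natCast (C : ℂ →+* MvPolynomial (Fin n × Fin n) ℂ), pderiv_C]
      rw [e2]
      simp only [Nat.add_one_sub_one, pow_one, map_sub, pderiv_C, map_add, map_mul, eval_C,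
        map_zero, sub_zero, map_natCast, hJd, Matrix.of_apply, ha]
      push_cast
      ring
    rw [hessM, Matrix.of_apply, hCz]
    simp only [G, map_sum, e1]
    rw [Matrix.smul_apply, Matrix.mul_apply, smul_eq_mul, Finset.mul_sum]
    rfl
  have hrank : K ≤ (hessM G C₀).rank := by
    have e1 : J'.transpose * (hessM G C₀) * ((2 : ℂ)⁻¹ • J') = 1 := by
      rw [hH, Matrix.mul_smul J'.transpose, Matrix.smul_mul, Matrix.mul_smul, smul_smul,
        mul_inv_cancel₀ two_ne_zero, one_smul]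
      calc J'.transpose * (J.transpose * J) * J' = (J * J').transpose * (J * J') := by
            rw [Matrix.transpose_mul]
            simp only [Matrix.mul_assoc]
        _ = 1 := by rw [hJ, Matrix.transpose_one, Matrix.one_mul]
    calc K = (1 : Matrix (Fin K) (Fin K) ℂ).rank := by rw [Matrix.rank_one, Fintype.card_fin]
      _ = (J'.transpose * (hessM G C₀) * ((2 : ℂ)⁻¹ • J')).rank := by rw [e1]
      _ ≤ (J'.transpose * (hessM G C₀)).rank := Matrix.rank_mul_le_left _ _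
      _ ≤ (hessM G C₀).rank := Matrix.rank_mul_le_right _ _
  refine one_lower hε hG C₀ (hd.trans ?_)
  have : (K : ℝ) ≤ (hessM G C₀).rank := by exact_mod_cast hrank
  linarith

/-- **Upper bound.** -/
theorem one_upper (n : ℕ) (c : Matrix (Fin n × Fin n) (Fin n × Fin n) ℂ) :
    ∃ t : ETree ℂ n 1, ∀ (A B : Matrix (Fin n) (Fin n) ℂ) (E : (Fin 1 → ℂ) → Prop),
      t.Can A B E 0 0 (n ^ 2 + trank ℂ n n n) 0 ↔
        E fun _ => eval (fun p => (A * B) p.1 p.2) (quad c) := by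
  rw [← rk_eq, pow_two]
  exact quad_upper (Pool.Agent.H515R2.MMR.hasRank_rk n) c

theorem one_upper' {n : ℕ} (c : Matrix (Fin n × Fin n) (Fin n × Fin n) ℂ) :
    ∃ t : ETree ℂ n 1, DeterminesNumber t (quad c) (n ^ 2 + trank ℂ n n n) := by
  obtain ⟨t, ht⟩ := one_upper n c
  refine ⟨t, 1, fun o => {o 0}, one_ne_zero, fun o => Set.countable_singleton _,
    fun A B _ => ⟨?_, ?_⟩⟩
  · rw [ht]
    trivial
  · intro o ho
    rw [ht] at ho
    rw [Set.mem_singleton_iff, ← ho]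

theorem oneCost_le {n S : ℕ} (hS : 1 ≤ S) (c : Matrix (Fin n × Fin n) (Fin n × Fin n) ℂ) :
    oneCost S (quad c) ≤ 2 * trank ℂ n n n := by
  obtain ⟨t, ht⟩ := one_upper' c
  have h1 : oneCost S (quad c) ≤ n ^ 2 + trank ℂ n n n := Nat.sInf_le ⟨1, t, hS, ht⟩
  have := Pool.Agent.W956.KF.sq_le_trank ℂ n
  omega

theorem le_oneCost {n S : ℕ} {ε : ℝ} (hε : 0 < ε) (hS : 1 ≤ S)
    (c : Matrix (Fin n × Fin n) (Fin n × Fin n) ℂ)
    (hS2 : 1 ≤ n → (S : ℝ) + ε * (n : ℝ) ^ 2 ≤ 2 * ((c + c.transpose).rank : ℝ)) :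
    (trank ℂ n n n : ℝ) ≤ 6 * (64 / ε ^ 2 + 1) ^ 3 * oneCost S (quad c) := by
  rcases Nat.eq_zero_or_pos n with hn | hn
  · subst hn
    rw [Pool.Agent.N590.MS.trank_zero]
    push_cast
    positivity
  · obtain ⟨t, ht⟩ := one_upper' c
    obtain ⟨s, t', hs, ht'⟩ := Nat.sInf_mem (s := {L : ℕ | ∃ (s : ℕ) (t : ETree ℂ n s), s ≤ S ∧
      DeterminesNumber t (quad c) L}) ⟨_, 1, t, hS, ht⟩
    refine one_lower hε ht' 0 ?_
    rw [hessM_quad]
    have h1 : (s : ℝ) ≤ S := by exact_mod_cast hs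
    have h2 := hS2 hn
    linarith

theorem family_part {ε : ℝ} (hε : 0 < ε) (S : ℕ → ℕ)
    (c : (n : ℕ) → Matrix (Fin n × Fin n) (Fin n × Fin n) ℂ) (hS : ∀ n, 1 ≤ S n)
    (hS2 : ∀ n, 1 ≤ n →
      (S n : ℝ) + ε * (n : ℝ) ^ 2 ≤ 2 * ((c n + (c n).transpose).rank : ℝ)) :
    (∀ n, oneCost (S n) (quad (c n)) ≤ 2 * trank ℂ n n n ∧
      (trank ℂ n n n : ℝ) ≤ 6 * (64 / ε ^ 2 + 1) ^ 3 * oneCost (S n) (quad (c n))) ∧
    growth (fun n => oneCost (S n) (quad (c n))) = Pool.Agent.W956.KF.omega ℂ ∧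
    (Superlinear (sizeMM ℂ) ↔ Superlinear fun n => oneCost (S n) (quad (c n))) := by
  have h1 : ∀ n, oneCost (S n) (quad (c n)) ≤ 2 * trank ℂ n n n := fun n => oneCost_le (hS n) _
  have h2 : ∀ n, (trank ℂ n n n : ℝ) ≤ 6 * (64 / ε ^ 2 + 1) ^ 3 *
      oneCost (S n) (quad (c n)) := fun n => le_oneCost hε (hS n) _ (hS2 n)
  obtain ⟨K, hK⟩ : ∃ K : ℕ, 6 * (64 / ε ^ 2 + 1) ^ 3 ≤ (K : ℝ) := exists_nat_ge _
  have hK0 : 0 < K := by
    have : (0 : ℝ) < K := lt_of_lt_of_le (by positivity) hK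
    exact_mod_cast this
  have h3 : ∀ n, trank ℂ n n n ≤ K * oneCost (S n) (quad (c n)) := by
    intro n
    have h4 := (h2 n).trans (mul_le_mul_of_nonneg_right hK (Nat.cast_nonneg _))
    exact_mod_cast h4
  have hup : ∀ τ, omegaMM ℂ < τ → ∃ D : ℝ, ∀ m : ℕ,
      ((fun n => oneCost (S n) (quad (c n))) m : ℝ) ≤ D * (m : ℝ) ^ τ := by
    intro τ hτ
    obtain ⟨D, hD⟩ := Pool.Agent.N590.MS.trank_upper ℂ hτ
    refine ⟨2 * D, fun m => ?_⟩
    have h5 : (oneCost (S m) (quad (c m)) : ℝ) ≤ 2 * trank ℂ m m m := by exact_mod_cast h1 m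
    have h6 := hD m
    show (oneCost (S m) (quad (c m)) : ℝ) ≤ _
    linarith [mul_assoc (2 : ℝ) D ((m : ℝ) ^ τ)]
  refine ⟨fun n => ⟨h1 n, h2 n⟩, ?_, ?_⟩
  · rw [Pool.Agent.W956.KF.omega_eq]
    exact Pool.Agent.W956.KF.growth_eq h3 hup
  · have e1 := Pool.Agent.W956.KF.superlinear_iff (K := ℂ) (f := sizeMM ℂ) (c := 3)
      (by norm_num) (Pool.Agent.N590.MS.trank_le_three_size ℂ)
      fun τ hτ => Pool.Agent.W956.KF.sizeMM_upper hτ
    have e2 := Pool.Agent.W956.KF.superlinear_iff (K := ℂ)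
      (f := fun n => oneCost (S n) (quad (c n))) hK0 h3 hup
    exact e1.trans e2.symm

/-- **Sharpness.** -/
theorem input_suffices (n : ℕ) (g : MvPolynomial (Fin n × Fin n) ℂ) :
    ∃ t : ETree ℂ n (2 * n ^ 2), DeterminesNumber t g 0 := by
  obtain ⟨s, t, hs, ht⟩ := encode_input n
  subst hs
  refine ⟨t, determinesNumber_of ht g
    (fun v => eval (fun p => v (finProdFinEquiv p)) g) fun C => ?_⟩
  congr 1
  congr 1
  funext p
  show C p.1 p.2 = eval (fun p => C p.1 p.2) (allEntries n (finProdFinEquiv p))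
  rw [allEntries, eval_X, Equiv.symm_apply_apply]

end Pool.Agent.N452.ON
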