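import Pool.Agent.N452.ON.Point

/-!
# The trilinear form at the generic point
-/

set_option linter.unusedSectionVars false

namespace Pool.Agent.N452.ON

open Pool.Agent.W966.Mm Pool.Agent.H515R2.MMR Pool.Agent.H53R3 Pool.Agent.W944.En Module
open MvPolynomial

section

variable {n : ℕ}

/-- The differential of `(X, Y) ↦ X * Y`. -/
def dl (X Y : Matrix (Fin n) (Fin n) ℂ) : (Ent n → ℂ) →ₗ[ℂ] Matrix (Fin n) (Fin n) ℂ where
  toFun ξ := mA ξ * Y + X * mB ξ
  map_add' ξ η := by
    have h1 : mA (ξ + η) = mA ξ + mA η := rfl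
    have h2 : mB (ξ + η) = mB ξ + mB η := rfl
    rw [h1, h2, add_mul, mul_add]
    abel
  map_smul' c ξ := by
    have h1 : mA (c • ξ) = c • mA ξ := rfl
    have h2 : mB (c • ξ) = c • mB ξ := rfl
    rw [h1, h2, Matrix.smul_mul, Matrix.mul_smul, ← smul_add]
    rfl

lemma dl_apply (X Y : Matrix (Fin n) (Fin n) ℂ) (ξ : Ent n → ℂ) :
    dl X Y ξ = mA ξ * Y + X * mB ξ := rfl

/-- The second differential of `(X, Y) ↦ X * Y`. -/
def bq (η ζ : Ent n → ℂ) : Matrix (Fin n) (Fin n) ℂ := mA η * mB ζ + mA ζ * mB η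

/-- The second differential of `g` at `C`. -/
noncomputable def hb (g : MvPolynomial (Fin n × Fin n) ℂ) (C U V : Matrix (Fin n) (Fin n) ℂ) :
    ℂ := ∑ p, ∑ q, eval (fun r => C r.1 r.2) (pderiv q (pderiv p g)) * (U q.1 q.2 * V p.1 p.2)

lemma c1_comm {κ F : Type} [Field F] [Fintype κ] (ξ v : κ → F) : c1 ξ v = c1 v ξ := by
  rw [c1_apply, c1_apply]
  exact Finset.sum_congr rfl fun i _ => mul_comm _ _

/-- The determinant of the first matrix as a polynomial. -/
lemma det_poly (n : ℕ) (b : Bool) : ∃ P : MvPolynomial (Ent n) ℂ, P ≠ 0 ∧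
    ∀ z : Ent n → ℂ, eval z P = if b then (mA z).det else (mB z).det := by
  classical
  cases b with
  | true =>
    refine ⟨(Matrix.of fun i j : Fin n => (X (Sum.inl (i, j)) : MvPolynomial (Ent n) ℂ)).det,
      ?_, ?_⟩
    · intro h0
      have h2 := congrArg (eval (entries (1 : Matrix (Fin n) (Fin n) ℂ) 1)) h0
      rw [RingHom.map_det, RingHom.mapMatrix_apply, map_zero] at h2
      have h3 : (Matrix.of fun i j : Fin n => (X (Sum.inl (i, j)) :
            MvPolynomial (Ent n) ℂ)).map (eval (entries (1 : Matrix (Fin n) (Fin n) ℂ) 1)) =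
            1 := by
        refine Matrix.ext fun i j => ?_
        simp [entries]
      rw [h3, Matrix.det_one] at h2
      exact one_ne_zero h2
    · intro z
      rw [RingHom.map_det, RingHom.mapMatrix_apply, if_pos rfl]
      congr 1
      refine Matrix.ext fun i j => ?_
      simp [mA]
  | false =>
    refine ⟨(Matrix.of fun i j : Fin n => (X (Sum.inr (i, j)) : MvPolynomial (Ent n) ℂ)).det,
      ?_, ?_⟩
    · intro h0
      have h2 := congrArg (eval (entries (1 : Matrix (Fin n) (Fin n) ℂ) 1)) h0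
      rw [RingHom.map_det, RingHom.mapMatrix_apply, map_zero] at h2
      have h3 : (Matrix.of fun i j : Fin n => (X (Sum.inr (i, j)) :
            MvPolynomial (Ent n) ℂ)).map (eval (entries (1 : Matrix (Fin n) (Fin n) ℂ) 1)) =
            1 := by
        refine Matrix.ext fun i j => ?_
        simp [entries]
      rw [h3, Matrix.det_one] at h2
      exact one_ne_zero h2
    · intro z
      rw [RingHom.map_det, RingHom.mapMatrix_apply, if_neg (by simp)]
      congr 1
      refine Matrix.ext fun i j => ?_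
      simp [mB]

/-- Second and third derivatives of a function of the product. -/
theorem prod_third {k : Type} [Field k] [Algebra k ℂ] (D : Ent n → ℂ → ℂ)
    (hD : ∀ i, IsDer (D i)) (hc : ∀ i (c : k), D i (algebraMap k ℂ c) = 0)
    (X Y : Matrix (Fin n) (Fin n) ℂ)
    (hDX : ∀ i x y, D i (X x y) = if i = Sum.inl (x, y) then 1 else 0)
    (hDY : ∀ i x y, D i (Y x y) = if i = Sum.inr (x, y) then 1 else 0)
    (g0 : MvPolynomial (Fin n × Fin n) k) (ξ η ζ : Ent n → ℂ) (hη : dl X Y η = 0) :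
    c3 ξ η ζ (Ts D (aeval (fun p : Fin n × Fin n => (X * Y) p.1 p.2) g0)) =
      ∑ p : Fin n × Fin n, ∑ q : Fin n × Fin n,
        aeval (fun p : Fin n × Fin n => (X * Y) p.1 p.2) (pderiv q (pderiv p g0)) *
          (dl X Y ξ q.1 q.2 * bq η ζ p.1 p.2 + dl X Y ζ p.1 p.2 * bq ξ η q.1 q.2) := by
  classical
  set cv : Fin n × Fin n → ℂ := fun p => (X * Y) p.1 p.2 with hcv
  have hX2 : ∀ x y, Hs D (X x y) = 0 := by
    intro x y
    funext i j
    show D i (D j (X x y)) = 0
    rw [hDX]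
    split_ifs
    · exact (hD i).one
    · exact (hD i).zero
  have hY2 : ∀ x y, Hs D (Y x y) = 0 := by
    intro x y
    funext i j
    show D i (D j (Y x y)) = 0
    rw [hDY]
    split_ifs
    · exact (hD i).one
    · exact (hD i).zero
  have gX : ∀ ω x y, c1 ω (gr D (X x y)) = mA ω x y := by
    intro ω x y
    rw [c1_apply]
    simp only [gr, hDX, mul_ite, mul_one, mul_zero, Finset.sum_ite_eq', Finset.mem_univ, if_true]
    rfl
  have gY : ∀ ω x y, c1 ω (gr D (Y x y)) = mB ω x y := by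
    intro ω x y
    rw [c1_apply]
    simp only [gr, hDY, mul_ite, mul_one, mul_zero, Finset.sum_ite_eq', Finset.mem_univ, if_true]
    rfl
  have hCe : ∀ p : Fin n × Fin n, cv p = ∑ r, X p.1 r * Y r p.2 := by
    intro p
    exact Matrix.mul_apply
  have g1 : ∀ ω p, c1 ω (gr D (cv p)) = dl X Y ω p.1 p.2 := by
    intro ω p
    have e1 : gr D (cv p) = ∑ r, (Y r p.2 • gr D (X p.1 r) + X p.1 r • gr D (Y r p.2)) := by
      funext i
      rw [Finset.sum_apply]
      show D i (cv p) = _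
      rw [hCe, (hD i).sum]
      refine Finset.sum_congr rfl fun r _ => ?_
      rw [(hD i).mul]
      simp only [Pi.add_apply, Pi.smul_apply, smul_eq_mul, gr]
      ring
    rw [e1, map_sum, dl_apply, Matrix.add_apply, Matrix.mul_apply, Matrix.mul_apply,
      ← Finset.sum_add_distrib]
    refine Finset.sum_congr rfl fun r _ => ?_
    rw [map_add, map_smul, map_smul, gX, gY, smul_eq_mul, smul_eq_mul, mul_comm (Y r p.2)]
  have g2 : ∀ ω χ p, c2 ω χ (Hs D (cv p)) = bq ω χ p.1 p.2 := by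
    intro ω χ p
    have e1 : Hs D (cv p) = ∑ r, Sym (gr D (X p.1 r)) (gr D (Y r p.2)) := by
      rw [hCe, Hs_sum D hD]
      refine Finset.sum_congr rfl fun r _ => ?_
      rw [Hs_mul D hD, hX2, hY2, smul_zero, smul_zero, zero_add, zero_add]
      rfl
    rw [e1, map_sum, bq, Matrix.add_apply, Matrix.mul_apply, Matrix.mul_apply,
      ← Finset.sum_add_distrib]
    refine Finset.sum_congr rfl fun r _ => ?_
    rw [c2_Sym, gX, gY, gX, gY]
  have g3 : ∀ p, Ts D (cv p) = 0 := by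
    intro p
    rw [hCe, Ts_sum D hD]
    refine Finset.sum_eq_zero fun r _ => ?_
    have z1 : ∀ y : Ent n → ℂ, S3 y (0 : Ent n → Ent n → ℂ) = 0 := fun y => (S3r y).map_zero
    rw [Ts_mul D hD, Ts_of_Hs D hD (hX2 _ _), Ts_of_Hs D hD (hY2 _ _), hX2, hY2, z1, z1,
      smul_zero, smul_zero, add_zero, add_zero, add_zero]
  have hη1 : ∀ p, c1 η (gr D (cv p)) = 0 := by
    intro p
    rw [g1, hη]
    rfl
  rw [chain3 D hD hc cv g0, map_add, map_add]
  simp only [map_sum, map_smul, smul_eq_mul, map_add, g3, map_zero, mul_zero,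
    Finset.sum_const_zero, zero_add]
  have t1 : ∀ u v, c3 ξ η ζ (fun i j r => D i (cv v) * Hs D (cv u) j r) =
      dl X Y ξ v.1 v.2 * bq η ζ u.1 u.2 := by
    intro u v
    rw [← g1, ← g2]
    exact c3_a ξ η ζ (gr D (cv v)) (Hs D (cv u))
  have t2 : ∀ u v, c3 ξ η ζ (fun i j r => D j (cv v) * Hs D (cv u) i r) = 0 := by
    intro u v
    have := c3_b ξ η ζ (gr D (cv v)) (Hs D (cv u))
    rw [hη1, zero_mul] at this
    exact this
  have t3 : ∀ u v, c3 ξ η ζ (fun i j r => D r (cv u) * Hs D (cv v) i j) =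
      dl X Y ζ u.1 u.2 * bq ξ η v.1 v.2 := by
    intro u v
    rw [← g1, ← g2]
    exact c3_c ξ η ζ (gr D (cv u)) (Hs D (cv v))
  have t4 : ∀ u v w, c3 ξ η ζ (fun i j r => D i (cv w) * (D j (cv v) * D r (cv u))) = 0 := by
    intro u v w
    have e1 := c3_a ξ η ζ (gr D (cv w)) (fun j r => D j (cv v) * D r (cv u))
    have e2 := c2_outer η ζ (gr D (cv v)) (gr D (cv u))
    rw [hη1, zero_mul] at e2
    have e3 : c2 η ζ (fun j r => D j (cv v) * D r (cv u)) = 0 := e2
    rw [e3, mul_zero] at e1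
    exact e1
  simp only [t1, t2, t3, t4, mul_zero, Finset.sum_const_zero, add_zero]

lemma pto_none {s : ℕ} (o : Fin s → ℂ) (y : ℂ) : pto o y none = y := rfl

lemma pto_some {s : ℕ} (o : Fin s → ℂ) (y : ℂ) (a : Fin s) : pto o y (some a) = o a := rfl

/-- **The trilinear form.** -/
theorem det_form {s L : ℕ} (t : ETree ℂ n s) (g : MvPolynomial (Fin n × Fin n) ℂ)
    (H : Determines t (fun _ : Fin 1 => g) L) (R : MvPolynomial (Fin n × Fin n) ℂ)
    (hR : R ≠ 0) :
    ∃ (X Y : Matrix (Fin n) (Fin n) ℂ) (N : Submodule ℂ (Ent n → ℂ)) (l : ℕ)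
      (f1 f2 f3 : Fin l × Fin 6 → ((Ent n → ℂ) →ₗ[ℂ] ℂ)),
      IsUnit X.det ∧ IsUnit Y.det ∧ eval (fun p => (X * Y) p.1 p.2) R ≠ 0 ∧ l ≤ L ∧
      2 * n ^ 2 ≤ finrank ℂ N + s ∧ ∀ ξ ∈ N, ∀ η ζ, dl X Y η = 0 →
        hb g (X * Y) (dl X Y ξ) (bq η ζ) + hb g (X * Y) (bq ξ η) (dl X Y ζ) =
          ∑ i, f1 i ξ * f2 i η * f3 i ζ := by
  classical
  obtain ⟨PA, hPA, hPA'⟩ := det_poly n true
  obtain ⟨PB, hPB, hPB'⟩ := det_poly n false
  have hRc : aeval (cpol ℂ n) R ≠ 0 := fun h0 =>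
    hR (cpol_injective ℂ n (h0.trans (map_zero _).symm))
  obtain ⟨k, t0, g0, z, o, f, ht0, hg0, hz, hPz, ho, hf1, hf2⟩ := gen_point t g H
    (PA * PB * aeval (cpol ℂ n) R) (mul_ne_zero (mul_ne_zero hPA hPB) hRc)
  rw [map_mul, map_mul] at hPz
  have hdA : (mA z).det ≠ 0 := by
    have := hPA' z
    rw [if_pos rfl] at this
    rw [← this]
    intro h0
    apply hPz
    rw [h0, zero_mul, zero_mul]
  have hdB : (mB z).det ≠ 0 := by
    have := hPB' z
    rw [if_neg (by simp)] at this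
    rw [← this]
    intro h0
    apply hPz
    rw [h0, mul_zero, zero_mul]
  have hRz : eval (fun p : Fin n × Fin n => (mA z * mB z) p.1 p.2) R ≠ 0 := by
    have h1 : eval z (aeval (cpol ℂ n) R) =
        eval (fun p : Fin n × Fin n => (mA z * mB z) p.1 p.2) R := by
      have h2 : ((eval z).comp (aeval (cpol ℂ n) : MvPolynomial (Fin n × Fin n) ℂ →ₐ[ℂ]
          MvPolynomial (Ent n) ℂ).toRingHom) =
          eval (fun p : Fin n × Fin n => (mA z * mB z) p.1 p.2) := by
        refine MvPolynomial.ringHom_ext (fun c => ?_) (fun p => ?_)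
        · simp
        · simp only [RingHom.comp_apply, AlgHom.toRingHom_eq_coe, AlgHom.coe_toRingHom, aeval_X,
            cpol, map_sum, map_mul, eval_X, Matrix.mul_apply, mA, mB, Matrix.of_apply]
      exact RingHom.congr_fun h2 R
    rw [← h1]
    intro h0
    apply hPz
    rw [h0, mul_zero]
  set X := mA z with hX
  set Y := mB z with hY
  set cv : Fin n × Fin n → ℂ := fun p => (X * Y) p.1 p.2 with hcv
  set y : ℂ := aeval cv g0 with hy
  -- derivations
  have hDex := exists_der hz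
  choose D hD hDc hDz using hDex
  have hDX : ∀ i a b, D i (X a b) = if i = Sum.inl (a, b) then 1 else 0 := by
    intro i a b
    have : X a b = z (Sum.inl (a, b)) := rfl
    rw [this, hDz]
    by_cases h : i = Sum.inl (a, b) <;> simp [h, eq_comm]
  have hDY : ∀ i a b, D i (Y a b) = if i = Sum.inr (a, b) then 1 else 0 := by
    intro i a b
    have : Y a b = z (Sum.inr (a, b)) := rfl
    rw [this, hDz]
    by_cases h : i = Sum.inr (a, b) <;> simp [h, eq_comm]
  have hX2 : ∀ x y, Hs D (X x y) = 0 := by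
    intro x y
    funext i j
    show D i (D j (X x y)) = 0
    rw [hDX]
    split_ifs
    · exact (hD i).one
    · exact (hD i).zero
  have hY2 : ∀ x y, Hs D (Y x y) = 0 := by
    intro x y
    funext i j
    show D i (D j (Y x y)) = 0
    rw [hDY]
    split_ifs
    · exact (hD i).one
    · exact (hD i).zero
  -- the run
  have hrun0 : (t0.tmap k.subtype).Can X Y (fun o' => o' = o) 0 0 L 0 := by
    rw [ht0]; exact ho
  obtain ⟨l, G, T, M, -, -, hT, hTc, hl, hstep, hout⟩ := path k.subtype t0 0 0 L 0 hrun0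
  have hT0 : T = ∅ := by
    rw [← Finset.card_eq_zero]
    omega
  subst hT0
  obtain ⟨p, q, hpq⟩ := third_repr D hD k.subtype (fun i c => hDc i c) hX2 hY2 l G
    (fun r hr => hstep r (Nat.zero_le _) hr (Finset.notMem_empty _))
  obtain ⟨α, β, γ, hαβγ⟩ := rel_third D hD hDc (pto o y) f hf1 hf2 p q (l := l)
    (fun a => by
      rw [pto_some, ← hout a]
      exact (hpq (M a)).1)
    (fun a => by
      rw [pto_some, ← hout a]
      exact (hpq (M a)).2)
  let Θ : (Ent n → ℂ) →ₗ[ℂ] (Fin s → ℂ) := LinearMap.pi fun a => c1 (gr D (o a))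
  have hΘ : ∀ ξ a, Θ ξ a = c1 ξ (gr D (o a)) := fun ξ a => c1_comm _ _
  refine ⟨X, Y, LinearMap.ker Θ, l,
    fun i => (![c1 (α i.1), c1 (α i.1), c1 (p i.1), c1 (q i.1), c1 (p i.1), c1 (q i.1)] : 
      Fin 6 → ((Ent n → ℂ) →ₗ[ℂ] ℂ)) i.2,
    fun i => (![c1 (p i.1), c1 (q i.1), c1 (β i.1), c1 (β i.1), c1 (q i.1), c1 (p i.1)] :
      Fin 6 → ((Ent n → ℂ) →ₗ[ℂ] ℂ)) i.2,
    fun i => (![c1 (q i.1), c1 (p i.1), c1 (q i.1), c1 (p i.1), c1 (γ i.1), c1 (γ i.1)] :
      Fin 6 → ((Ent n → ℂ) →ₗ[ℂ] ℂ)) i.2,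
    isUnit_iff_ne_zero.mpr hdA, isUnit_iff_ne_zero.mpr hdB, hRz, ?_, ?_, ?_⟩
  · simpa using hl
  · have e1 := LinearMap.finrank_range_add_finrank_ker Θ
    have e2 : finrank ℂ (LinearMap.range Θ) ≤ s := by
      have := Submodule.finrank_le (LinearMap.range Θ)
      rwa [finrank_fin_fun] at this
    have e3 : finrank ℂ (Ent n → ℂ) = 2 * n ^ 2 := by
      rw [Module.finrank_fintype_fun_eq_card, Fintype.card_sum, Fintype.card_prod,
        Fintype.card_fin]
      ring
    omega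
  · intro ξ hξ η ζ hη
    have hξ' : ∀ a, c1 ξ (gr D (pto o y (some a))) = 0 := by
      intro a
      rw [pto_some, ← hΘ]
      exact congrFun hξ a
    have e1 := (hαβγ ξ hξ').2 η ζ
    rw [pto_none] at e1
    have e2 := prod_third D hD hDc X Y hDX hDY g0 ξ η ζ hη
    rw [← hy, e1] at e2
    have e3 : ∀ p q : Fin n × Fin n,
        aeval (fun p : Fin n × Fin n => (X * Y) p.1 p.2) (pderiv q (pderiv p g0)) =
        eval (fun r : Fin n × Fin n => (X * Y) r.1 r.2) (pderiv q (pderiv p g)) := by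
      intro p q
      rw [← hg0, pderiv_map, pderiv_map, eval_map]
      rfl
    have e4 : hb g (X * Y) (dl X Y ξ) (bq η ζ) + hb g (X * Y) (bq ξ η) (dl X Y ζ) =
        ∑ t ∈ Finset.range l, (c1 ξ (α t) * c2 η ζ (Sym (p t) (q t)) +
          c1 η (β t) * c2 ξ ζ (Sym (p t) (q t)) + c1 ζ (γ t) * c2 ξ η (Sym (p t) (q t))) := by
      rw [e2]
      unfold hb
      simp only [← Finset.sum_add_distrib]
      refine Finset.sum_congr rfl fun u _ => Finset.sum_congr rfl fun v _ => ?_
      rw [e3]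
      ring
    rw [e4, Finset.sum_range, Fintype.sum_prod_type]
    refine Finset.sum_congr rfl fun t _ => ?_
    rw [Fin.sum_univ_six, c2_Sym, c2_Sym, c2_Sym]
    simp only [Matrix.cons_val_zero, Matrix.cons_val_one, Matrix.cons_val]
    simp only [c1_comm ξ, c1_comm η, c1_comm ζ]
    ring

end

end Pool.Agent.N452.ON
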