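import Pool.Agent.W944.En.BoundC

/-!
# Linear algebra: compressions and the symmetrised trilinear form
-/

set_option linter.unusedSectionVars false

namespace Pool.Agent.N452.ON

open Pool.Agent.W966.Mm Pool.Agent.H515R2.MMR Pool.Agent.W944.En Module

/-- The block lemma for rectangular blocks. -/
theorem block_rect {a b c m : ℕ} (T : Submodule ℂ (Matrix (Fin a) (Fin b) ℂ)) (ha : c ≤ a)
    (hb : m ≤ b) (hdim : finrank ℂ T < (a - c + 1) * (b - m + 1)) :
    ∃ (P : Matrix (Fin a) (Fin c) ℂ) (R : Matrix (Fin m) (Fin b) ℂ),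
      ∀ y : Matrix (Fin c) (Fin m) ℂ, P * y * R ∈ T → y = 0 := by
  classical
  obtain ⟨U, hU, e, he1, ⟨v₀, hv₀⟩, hdim'⟩ := greedy T (b - m)
  have he : e ≤ a - c := by
    have h1 : e ≤ finrank ℂ (TU T U) := by
      rw [← hv₀]
      exact Submodule.finrank_map_le _ _
    have h2 : (b - m + 1) * e < (b - m + 1) * (a - c + 1) := by
      calc (b - m + 1) * e = (b - m) * e + e := by ring
        _ ≤ (b - m) * e + finrank ℂ (TU T U) := Nat.add_le_add_left h1 _
        _ ≤ finrank ℂ T := hdim'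
        _ < (a - c + 1) * (b - m + 1) := hdim
        _ = (b - m + 1) * (a - c + 1) := by ring
    have := Nat.lt_of_mul_lt_mul_left h2
    omega
  -- functionals which vanish on `U`
  obtain ⟨ι, π, hπ⟩ := exists_retract (K := ℂ) (A := U) (B := Fin (b - m) → ℂ)
    (by rw [finrank_fin_fun]; exact hU)
  let Ub : Matrix (Fin (b - m)) (Fin b) ℂ :=
    (LinearMap.toMatrix' (U.subtype ∘ₗ π)).transpose
  obtain ⟨N, N', hN1, hN2⟩ := ker_fact (m := m) (by omega : m + (b - m) ≤ b) Ub
  have hUN : ∀ u ∈ U, N.transpose.mulVec u = 0 := by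
    intro u hu
    have h1 : u = (LinearMap.toMatrix' (U.subtype ∘ₗ π)).mulVec (ι ⟨u, hu⟩) := by
      rw [LinearMap.toMatrix'_mulVec]
      have := LinearMap.congr_fun hπ ⟨u, hu⟩
      simp only [LinearMap.comp_apply, LinearMap.id_apply] at this
      simp only [LinearMap.comp_apply, this]
      rfl
    have h2 : N.transpose * LinearMap.toMatrix' (U.subtype ∘ₗ π) = 0 := by
      have := congrArg Matrix.transpose hN1
      rwa [Matrix.transpose_mul, Matrix.transpose_transpose, Matrix.transpose_zero] at this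
    rw [h1, Matrix.mulVec_mulVec, h2, Matrix.zero_mulVec]
  have hNN : N.transpose * N'.transpose = 1 := by
    rw [← Matrix.transpose_mul, hN2, Matrix.transpose_one]
  -- the vectors on which the block is tested
  let w : Fin m → (Fin b → ℂ) := fun j => N'.transpose.mulVec (Pi.single j 1)
  obtain ⟨p, hp⟩ := exists_avoid (fun j : Fin m => (TU T U).map (evm (w j))) (m := c) (fun j => by
    have := he1 (w j)
    omega) c le_rfl
  refine ⟨Matrix.of fun i j => p j i, N.transpose, fun y hy => ?_⟩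
  set P : Matrix (Fin a) (Fin c) ℂ := Matrix.of fun i j => p j i with hP
  have hPv : ∀ z : Fin c → ℂ, P.mulVec z = ∑ i, z i • p i := by
    intro z
    funext i
    rw [Finset.sum_apply]
    simp only [Matrix.mulVec, dotProduct, hP, Matrix.of_apply, Pi.smul_apply, smul_eq_mul]
    exact Finset.sum_congr rfl fun j _ => mul_comm _ _
  have hmem : P * y * N.transpose ∈ TU T U := by
    refine ⟨hy, fun u hu => ?_⟩
    rw [← Matrix.mulVec_mulVec, hUN u hu, Matrix.mulVec_zero]
  have hcol : ∀ j, y.mulVec (Pi.single j 1) = 0 := by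
    intro j
    refine hp j _ ?_
    rw [← hPv]
    refine ⟨P * y * N.transpose, hmem, ?_⟩
    show (P * y * N.transpose).mulVec (w j) = _
    simp only [w]
    rw [Matrix.mulVec_mulVec, Matrix.mul_assoc, hNN, Matrix.mul_one, Matrix.mulVec_mulVec]
  refine Matrix.ext fun i j => ?_
  have := congrFun (hcol j) i
  rw [Matrix.mulVec_single_one] at this
  exact this

/-- Compressions onto all matrices of a smaller format. -/
lemma compress_rect {a b c m d : ℕ} (hc : c ≤ a) (hm : m ≤ b) {X : Type} [AddCommGroup X]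
    [Module ℂ X] (τ : X →ₗ[ℂ] Matrix (Fin a) (Fin b) ℂ)
    (hd : d ≤ finrank ℂ (LinearMap.range τ)) (hdim : a * b < d + (b - m + 1) * (a - c + 1)) :
    ∃ (R : Matrix (Fin c) (Fin a) ℂ) (P : Matrix (Fin b) (Fin m) ℂ)
      (sec : Matrix (Fin c) (Fin m) ℂ →ₗ[ℂ] X), ∀ x, R * τ (sec x) * P = x := by
  have h1 := finrank_annT (LinearMap.range τ)
  obtain ⟨P, R, hPR⟩ := block_rect (annT (LinearMap.range τ)) hm hc (by omega)
  let Ψ : X →ₗ[ℂ] Matrix (Fin c) (Fin m) ℂ :=
    mulRightLinearMap (Fin c) ℂ P ∘ₗ mulLeftLinearMap (Fin b) ℂ R ∘ₗ τ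
  have hΨ : ∀ x, Ψ x = R * τ x * P := fun _ => rfl
  have hsurj : LinearMap.range Ψ = ⊤ := by
    have h2 := finrank_annT (LinearMap.range Ψ)
    have h3 : annT (LinearMap.range Ψ) = ⊥ := by
      rw [Submodule.eq_bot_iff]
      intro y hy
      refine hPR y ?_
      rintro _ ⟨x, rfl⟩
      have := hy (Ψ x) ⟨x, rfl⟩
      rw [hΨ, Matrix.mul_assoc, Matrix.mul_assoc, Matrix.trace_mul_comm] at this
      simpa only [Matrix.mul_assoc] using this
    rw [h3, finrank_bot, zero_add] at h2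
    apply Submodule.eq_top_of_finrank_eq
    rw [h2, Module.finrank_matrix, Module.finrank_self, Fintype.card_fin, Fintype.card_fin,
      mul_one]
  obtain ⟨sec, hsec⟩ := LinearMap.exists_rightInverse_of_surjective Ψ hsurj
  exact ⟨R, P, sec, fun x => LinearMap.congr_fun hsec x⟩

/-- The rank of a linear map restricted to the kernel of another one. -/
lemma rank_ker {X V W : Type} [AddCommGroup X] [Module ℂ X] [AddCommGroup V] [Module ℂ V]
    [AddCommGroup W] [Module ℂ W] [FiniteDimensional ℂ X] [FiniteDimensional ℂ V]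
    [FiniteDimensional ℂ W] (f : X →ₗ[ℂ] V) (g : X →ₗ[ℂ] W) :
    finrank ℂ (LinearMap.range f) ≤
      finrank ℂ (LinearMap.range (f ∘ₗ (LinearMap.ker g).subtype)) +
        finrank ℂ (LinearMap.range g) := by
  have h1 := LinearMap.finrank_range_add_finrank_ker f
  have h2 := LinearMap.finrank_range_add_finrank_ker g
  have h3 := LinearMap.finrank_range_add_finrank_ker (f ∘ₗ (LinearMap.ker g).subtype)
  have h4 : finrank ℂ (LinearMap.ker (f ∘ₗ (LinearMap.ker g).subtype)) ≤
      finrank ℂ (LinearMap.ker f) := by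
    let j : LinearMap.ker (f ∘ₗ (LinearMap.ker g).subtype) →ₗ[ℂ] LinearMap.ker f :=
      LinearMap.codRestrict _ ((LinearMap.ker g).subtype ∘ₗ
        (LinearMap.ker (f ∘ₗ (LinearMap.ker g).subtype)).subtype) fun x => x.2
    refine LinearMap.finrank_le_finrank_of_injective (f := j) ?_
    intro x y hxy
    have := congrArg (fun z : LinearMap.ker f => (z : X)) hxy
    exact Subtype.ext (Subtype.ext this)
  omega

section

variable {n : ℕ} {X1 X2 : Type} [AddCommGroup X1] [Module ℂ X1] [AddCommGroup X2] [Module ℂ X2]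
  [FiniteDimensional ℂ X1] [FiniteDimensional ℂ X2]

/-- **Symmetrised restricted matrix multiplication.** -/
theorem sym_rank (τ1 : X1 →ₗ[ℂ] Matrix (Fin n) (Fin n) ℂ) (τ2 : X2 →ₗ[ℂ] Matrix (Fin n) (Fin n) ℂ)
    {ι : Type} [Fintype ι] (f : ι → (X1 →ₗ[ℂ] ℂ)) (g : ι → (X2 →ₗ[ℂ] ℂ))
    (h : ι → (Matrix (Fin n) (Fin n) ℂ →ₗ[ℂ] ℂ))
    (H : ∀ x y B, (τ1 x * (τ2 y * B + B * τ2 y)).trace = ∑ i, f i x * g i y * h i B)
    {m c q d1 d2 : ℕ} (hm : m ≤ n) (hc : c ≤ n) (hqm : q + 1 ≤ m) (hqc : q + 1 ≤ c)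
    (hd1 : d1 ≤ finrank ℂ (LinearMap.range τ1)) (hd2 : d2 ≤ finrank ℂ (LinearMap.range τ2))
    (h1 : n * n + n * m < d2 + (n - c + 1) * (n - q))
    (h2 : n * (n * m) < m * d1 + n * ((m - q) * (c - q))) :
    HasRank (q + 1) (Fintype.card ι) := by
  classical
  -- columns for `τ1`
  obtain ⟨E, hE⟩ := exists_cols_mul (LinearMap.range τ1) hm
  let ρE : Matrix (Fin n) (Fin n) ℂ →ₗ[ℂ] Matrix (Fin n) (Fin m) ℂ := mulRightLinearMap (Fin n) ℂ E
  have hρE : ∀ M, ρE M = M * E := fun _ => rfl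
  have hE' : m * d1 ≤ n * finrank ℂ (LinearMap.range (ρE ∘ₗ τ1)) := by
    rw [LinearMap.range_comp]
    exact (Nat.mul_le_mul_left _ hd1).trans hE
  -- `τ2`
  let K2 := LinearMap.ker (ρE ∘ₗ τ2)
  have hK2 : d2 ≤ finrank ℂ (LinearMap.range (τ2 ∘ₗ K2.subtype)) + n * m := by
    have e1 : finrank ℂ (LinearMap.range τ2) ≤
        finrank ℂ (LinearMap.range (τ2 ∘ₗ K2.subtype)) +
        finrank ℂ (LinearMap.range (ρE ∘ₗ τ2)) := rank_ker τ2 (ρE ∘ₗ τ2)
    have e2 : finrank ℂ (LinearMap.range (ρE ∘ₗ τ2)) ≤ n * m := by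
      have := Submodule.finrank_le (LinearMap.range (ρE ∘ₗ τ2))
      rwa [Module.finrank_matrix, Module.finrank_self, Fintype.card_fin, Fintype.card_fin,
        mul_one] at this
    exact hd2.trans (e1.trans (Nat.add_le_add_left e2 _))
  obtain ⟨R, P, sec2, hsec2⟩ := compress_rect (c := q + 1) (m := c) (hqm.trans hm) hc
    (τ2 ∘ₗ K2.subtype) le_rfl (by
      have : n - (q + 1) + 1 = n - q := by omega
      rw [this]
      omega)
  have hK2E : ∀ κ, τ2 (sec2 κ) * E = 0 := fun κ => (sec2 κ).2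
  -- a left inverse of `P`
  have hPinj : Function.Injective P.mulVecLin := by
    rw [← LinearMap.ker_eq_bot, LinearMap.ker_eq_bot']
    intro v hv
    have e1 : ∀ κ : Matrix (Fin (q + 1)) (Fin c) ℂ, κ.mulVec v = 0 := by
      intro κ
      have e2 := hsec2 κ
      rw [← e2, ← Matrix.mulVec_mulVec]
      have : P.mulVec v = 0 := hv
      rw [this, Matrix.mulVec_zero]
    funext j
    have e3 := congrFun (e1 (Matrix.single 0 j 1)) 0
    simpa [Matrix.mulVec, dotProduct, Matrix.single_apply] using e3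
  obtain ⟨Pl, hPl⟩ := LinearMap.exists_leftInverse_of_injective P.mulVecLin
    (LinearMap.ker_eq_bot.mpr hPinj)
  set P' : Matrix (Fin c) (Fin n) ℂ := LinearMap.toMatrix' Pl with hP'
  have hPP : P' * P = 1 := by
    have e1 : P = LinearMap.toMatrix' P.mulVecLin := (LinearMap.toMatrix'_toLin' P).symm
    calc P' * P = LinearMap.toMatrix' Pl * LinearMap.toMatrix' P.mulVecLin := by rw [← e1]
      _ = 1 := by rw [← LinearMap.toMatrix'_comp, hPl, LinearMap.toMatrix'_id]
  -- `τ1` with columns in the range of `P`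
  let δ : Matrix (Fin n) (Fin m) ℂ →ₗ[ℂ] Matrix (Fin n) (Fin m) ℂ :=
    mulLeftLinearMap (Fin m) ℂ (1 - P * P')
  have hδ : ∀ M, δ M = (1 - P * P') * M := fun _ => rfl
  have hδr : finrank ℂ (LinearMap.range δ) + c * m ≤ n * m := by
    have e1 := LinearMap.finrank_range_add_finrank_ker δ
    rw [Module.finrank_matrix, Module.finrank_self, Fintype.card_fin, Fintype.card_fin,
      mul_one] at e1
    have e2 : c * m ≤ finrank ℂ (LinearMap.ker δ) := by
      let j : Matrix (Fin c) (Fin m) ℂ →ₗ[ℂ] LinearMap.ker δ :=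
        LinearMap.codRestrict _ (mulLeftLinearMap (Fin m) ℂ P) fun M => by
          show δ (P * M) = 0
          rw [hδ, Matrix.sub_mul, Matrix.one_mul, Matrix.mul_assoc, ← Matrix.mul_assoc P' P,
            hPP, Matrix.one_mul, sub_self]
      have hj : Function.Injective j := by
        intro M M' hMM
        have e3 : P * M = P * M' := congrArg (fun z : LinearMap.ker δ =>
          (z : Matrix (Fin n) (Fin m) ℂ)) hMM
        have e4 := congrArg (fun Z => P' * Z) e3
        simp only [← Matrix.mul_assoc, hPP, Matrix.one_mul] at e4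
        exact e4
      have := LinearMap.finrank_le_finrank_of_injective hj
      rwa [Module.finrank_matrix, Module.finrank_self, Fintype.card_fin, Fintype.card_fin,
        mul_one] at this
    omega
  let K1 := LinearMap.ker (δ ∘ₗ ρE ∘ₗ τ1)
  let W : K1 →ₗ[ℂ] Matrix (Fin c) (Fin m) ℂ :=
    mulLeftLinearMap (Fin m) ℂ P' ∘ₗ (ρE ∘ₗ τ1) ∘ₗ K1.subtype
  have hWd : ∀ x, W x = P' * (τ1 x * E) := fun _ => rfl
  have hW : ∀ x : K1, P * W x = τ1 x * E := by
    intro x
    have e1 : (1 - P * P') * (τ1 x * E) = 0 := x.2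
    rw [Matrix.sub_mul, Matrix.one_mul, sub_eq_zero] at e1
    rw [hWd, ← Matrix.mul_assoc]
    exact e1.symm
  have hWr : finrank ℂ (LinearMap.range (ρE ∘ₗ τ1)) + c * m ≤
      finrank ℂ (LinearMap.range W) + n * m := by
    have e1 : finrank ℂ (LinearMap.range (ρE ∘ₗ τ1)) ≤
        finrank ℂ (LinearMap.range ((ρE ∘ₗ τ1) ∘ₗ K1.subtype)) +
        finrank ℂ (LinearMap.range (δ ∘ₗ ρE ∘ₗ τ1)) := rank_ker (ρE ∘ₗ τ1) (δ ∘ₗ ρE ∘ₗ τ1)
    have e2 : finrank ℂ (LinearMap.range (δ ∘ₗ ρE ∘ₗ τ1)) ≤ finrank ℂ (LinearMap.range δ) := by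
      refine Submodule.finrank_mono ?_
      rintro _ ⟨x, rfl⟩
      exact ⟨_, rfl⟩
    have e3 : finrank ℂ (LinearMap.range ((ρE ∘ₗ τ1) ∘ₗ K1.subtype)) ≤
        finrank ℂ (LinearMap.range W) := by
      have e4 : (ρE ∘ₗ τ1) ∘ₗ K1.subtype = mulLeftLinearMap (Fin m) ℂ P ∘ₗ W := by
        refine LinearMap.ext fun x => ?_
        exact (hW x).symm
      rw [e4, LinearMap.range_comp]
      exact Submodule.finrank_map_le _ _
    omega
  obtain ⟨R', Q', sec1, hsec1⟩ := compress_rect (c := q + 1) (m := q + 1) hqc hqm W le_rfl (by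
    have e1 : c - (q + 1) + 1 = c - q := by omega
    have e2 : m - (q + 1) + 1 = m - q := by omega
    rw [e1, e2]
    -- `n m < rank + (m - q) (c - q)` after multiplication by `n`
    have e3 : n * (n * m) < n * (finrank ℂ (LinearMap.range (ρE ∘ₗ τ1)) + (m - q) * (c - q)) := by
      rw [Nat.mul_add]
      exact h2.trans_le (Nat.add_le_add_right hE' _)
    have e4 := Nat.lt_of_mul_lt_mul_left e3
    omega)
  refine hasRank_of_trilin (m := q + 1) (fun i => g i ∘ₗ K2.subtype ∘ₗ sec2 ∘ₗ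
      mulRightLinearMap (Fin (q + 1)) ℂ R')
    (fun i => f i ∘ₗ K1.subtype ∘ₗ sec1)
    (fun i => h i ∘ₗ mulLeftLinearMap (Fin n) ℂ (E * Q') ∘ₗ mulRightLinearMap (Fin (q + 1)) ℂ R)
    ?_ le_rfl
  intro v u B
  have e1 := H (sec1 u) (sec2 (v * R')) ((E * Q') * (B * R))
  have e2 : (τ1 (sec1 u) * (τ2 (sec2 (v * R')) * ((E * Q') * (B * R)) +
      (E * Q') * (B * R) * τ2 (sec2 (v * R')))).trace = (v * u * B).trace := by
    have e3 : τ2 (sec2 (v * R')) * ((E * Q') * (B * R)) = 0 := by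
      rw [Matrix.mul_assoc E, ← Matrix.mul_assoc, hK2E, Matrix.zero_mul]
    have e4 : R * τ2 (sec2 (v * R')) * P = v * R' := hsec2 (v * R')
    rw [e3, zero_add]
    have e5 : τ1 (sec1 u) * (E * Q' * (B * R) * τ2 (sec2 (v * R'))) =
        (τ1 (sec1 u) * E * Q' * B) * (R * τ2 (sec2 (v * R'))) := by
      simp only [Matrix.mul_assoc]
    rw [e5, Matrix.trace_mul_comm, ← hW]
    have e6 : R * τ2 (sec2 (v * R')) * (P * W (sec1 u) * Q' * B) =
        (R * τ2 (sec2 (v * R')) * P) * W (sec1 u) * Q' * B := by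
      simp only [Matrix.mul_assoc]
    rw [e6, e4]
    have e7 : v * R' * W (sec1 u) * Q' * B = v * (R' * W (sec1 u) * Q') * B := by
      simp only [Matrix.mul_assoc]
    rw [e7, hsec1]
  rw [e2] at e1
  rw [e1]
  refine Finset.sum_congr rfl fun i _ => ?_
  simp only [LinearMap.comp_apply]
  have e8 : mulLeftLinearMap (Fin n) ℂ (E * Q') (mulRightLinearMap (Fin (q + 1)) ℂ R B) =
      E * Q' * (B * R) := rfl
  have e9 : mulRightLinearMap (Fin (q + 1)) ℂ R' v = v * R' := rfl
  rw [e8, e9]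
  show _ = g i (sec2 (v * R')) * f i (sec1 u) * _
  ring

end

end Pool.Agent.N452.ON
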