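import Pool.Agent.N452.ON.LinAlg
import Pool.Agent.W966.Mm.ConstAsym

/-!
# The symmetrised trilinear form: bounds with a constant factor
-/

set_option linter.unusedSectionVars false

namespace Pool.Agent.N452.ON

open Pool.Agent.W966.Mm Pool.Agent.H515R2.MMR Pool.Agent.W944.En Module

section

variable {n : ℕ} {X1 X2 : Type} [AddCommGroup X1] [Module ℂ X1] [AddCommGroup X2] [Module ℂ X2]
  [FiniteDimensional ℂ X1] [FiniteDimensional ℂ X2]

lemma finrank_range_le (τ : X1 →ₗ[ℂ] Matrix (Fin n) (Fin n) ℂ) :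
    finrank ℂ (LinearMap.range τ) ≤ n ^ 2 := by
  have := Submodule.finrank_le (LinearMap.range τ)
  rwa [Module.finrank_matrix, Module.finrank_self, Fintype.card_fin, mul_one, ← pow_two] at this

/-- The symmetrised form does not vanish on large subspaces. -/
lemma sym_pos (τ1 : X1 →ₗ[ℂ] Matrix (Fin n) (Fin n) ℂ) (τ2 : X2 →ₗ[ℂ] Matrix (Fin n) (Fin n) ℂ)
    {ι : Type} [Fintype ι] (f : ι → (X1 →ₗ[ℂ] ℂ)) (g : ι → (X2 →ₗ[ℂ] ℂ))
    (h : ι → (Matrix (Fin n) (Fin n) ℂ →ₗ[ℂ] ℂ))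
    (H : ∀ x y B, (τ1 x * (τ2 y * B + B * τ2 y)).trace = ∑ i, f i x * g i y * h i B)
    (hd : n ^ 2 < finrank ℂ (LinearMap.range τ1) + finrank ℂ (LinearMap.range τ2)) :
    1 ≤ Fintype.card ι := by
  by_contra hcon
  have hι : IsEmpty ι := Fintype.card_eq_zero_iff.mp (by omega)
  have h0 : ∀ x y, (τ1 x * τ2 y).trace = 0 := by
    intro x y
    have e1 := H x y 1
    rw [Finset.univ_eq_empty, Finset.sum_empty, Matrix.mul_one, Matrix.one_mul, Matrix.mul_add,
      Matrix.trace_add, ← two_mul] at e1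
    exact (mul_eq_zero.mp e1).resolve_left two_ne_zero
  have h1 : LinearMap.range τ2 ≤ annT (LinearMap.range τ1) := by
    rintro _ ⟨y, rfl⟩
    rintro _ ⟨x, rfl⟩
    exact h0 x y
  have h2 := Submodule.finrank_mono h1
  have h3 := finrank_annT (LinearMap.range τ1)
  rw [← pow_two] at h3
  omega

/-- **Symmetrised restricted matrix multiplication, with a constant factor.** -/
theorem sym_rk {ε : ℝ} (hε : 0 < ε) (τ1 : X1 →ₗ[ℂ] Matrix (Fin n) (Fin n) ℂ)
    (τ2 : X2 →ₗ[ℂ] Matrix (Fin n) (Fin n) ℂ)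
    {ι : Type} [Fintype ι] (f : ι → (X1 →ₗ[ℂ] ℂ)) (g : ι → (X2 →ₗ[ℂ] ℂ))
    (h : ι → (Matrix (Fin n) (Fin n) ℂ →ₗ[ℂ] ℂ))
    (H : ∀ x y B, (τ1 x * (τ2 y * B + B * τ2 y)).trace = ∑ i, f i x * g i y * h i B)
    (hd : (1 + ε) * (n : ℝ) ^ 2 ≤ (finrank ℂ (LinearMap.range τ1) : ℝ) +
      (finrank ℂ (LinearMap.range τ2) : ℝ)) :
    (rk n : ℝ) ≤ (16 / ε ^ 2 + 1) ^ 3 * Fintype.card ι := by
  rcases Nat.eq_zero_or_pos n with hn | hn
  · subst hn
    rw [rk_zero]
    push_cast
    positivity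
  have hn0 : (0 : ℝ) < n := by exact_mod_cast hn
  have hn1 : (1 : ℝ) ≤ n := by exact_mod_cast hn
  set d1 := finrank ℂ (LinearMap.range τ1) with hd1
  set d2 := finrank ℂ (LinearMap.range τ2) with hd2
  have hd1n : d1 ≤ n ^ 2 := finrank_range_le τ1
  have hd2n : d2 ≤ n ^ 2 := finrank_range_le τ2
  have hd1r : (d1 : ℝ) ≤ (n : ℝ) ^ 2 := by exact_mod_cast hd1n
  have hd2r : (d2 : ℝ) ≤ (n : ℝ) ^ 2 := by exact_mod_cast hd2n
  have hn2 : (0 : ℝ) < (n : ℝ) ^ 2 := by positivity
  have hε1 : ε ≤ 1 := by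
    by_contra hcon
    push Not at hcon
    nlinarith
  have hcard : 1 ≤ Fintype.card ι := by
    refine sym_pos τ1 τ2 f g h H ?_
    have : ((n ^ 2 : ℕ) : ℝ) < ((d1 + d2 : ℕ) : ℝ) := by
      push_cast
      have : 0 < ε * (n : ℝ) ^ 2 := by positivity
      linarith
    exact_mod_cast this
  have hcard' : (1 : ℝ) ≤ Fintype.card ι := by exact_mod_cast hcard
  rcases lt_or_ge (ε * n) 16 with hsmall | hlarge
  · have h1 : (rk n : ℝ) ≤ (n : ℝ) ^ 3 := by exact_mod_cast rk_le (hasRank_cube n)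
    have h2 : (n : ℝ) ≤ 16 / ε ^ 2 + 1 := by
      have h3 : (n : ℝ) ≤ 16 / ε := by
        rw [le_div_iff₀ hε]
        linarith
      have h4 : 16 / ε ≤ 16 / ε ^ 2 := by
        apply div_le_div_of_nonneg_left (by norm_num) (by positivity)
        nlinarith
      linarith
    have h5 : (n : ℝ) ^ 3 ≤ (16 / ε ^ 2 + 1) ^ 3 := pow_le_pow_left₀ hn0.le h2 3
    have h6 : (0 : ℝ) ≤ (16 / ε ^ 2 + 1) ^ 3 := by positivity
    nlinarith
  · -- the parameters
    obtain ⟨m, hm1, hm2⟩ : ∃ m : ℕ, ε / 2 * n ≤ (m : ℝ) ∧ (m : ℝ) < ε / 2 * n + 1 :=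
      ⟨⌈ε / 2 * n⌉₊, Nat.le_ceil _, Nat.ceil_lt_add_one (by positivity)⟩
    obtain ⟨q, hq1, hq2⟩ : ∃ q : ℕ, (q : ℝ) ≤ ε ^ 2 * n / 16 ∧ ε ^ 2 * n / 16 < (q : ℝ) + 1 :=
      ⟨⌊ε ^ 2 * n / 16⌋₊, Nat.floor_le (by positivity), Nat.lt_floor_add_one _⟩
    have hεn : ε * n ≤ n := by nlinarith
    have hq3 : (q : ℝ) ≤ ε * n / 16 := by
      have : ε ^ 2 * n ≤ ε * n := by nlinarith
      linarith
    have hmn : m ≤ n := by
      have : (m : ℝ) ≤ n := by linarith
      exact_mod_cast this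
    have hqm : q + 1 ≤ m := by
      have : ((q + 1 : ℕ) : ℝ) ≤ m := by push_cast; linarith
      exact_mod_cast this
    have hqn : q < n := by omega
    obtain ⟨w, hw⟩ : ∃ w : ℕ, w = (n ^ 2 - d2 + n * m) / (n - q) := ⟨_, rfl⟩
    have hw1 : w * (n - q) ≤ n ^ 2 - d2 + n * m := by
      rw [hw]
      exact Nat.div_mul_le_self _ _
    have hw2 : n ^ 2 - d2 + n * m < (w + 1) * (n - q) := by
      have := Nat.lt_mul_div_succ (n ^ 2 - d2 + n * m) (b := n - q) (by omega)
      rw [← hw, mul_comm (n - q)] at this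
      exact this
    have hw1r : (w : ℝ) * ((n : ℝ) - q) ≤ (n : ℝ) ^ 2 - d2 + n * m := by
      have : ((w * (n - q) : ℕ) : ℝ) ≤ ((n ^ 2 - d2 + n * m : ℕ) : ℝ) := by exact_mod_cast hw1
      push_cast [Nat.cast_sub hd2n, Nat.cast_sub hqn.le] at this
      exact this
    set N : ℝ := (n : ℝ) with hN
    set M : ℝ := (m : ℝ) with hM
    set Q : ℝ := (q : ℝ) with hQ
    set D1 : ℝ := (d1 : ℝ) with hD1
    set D2 : ℝ := (d2 : ℝ) with hD2
    set W : ℝ := (w : ℝ) with hW
    have hQ0 : 0 ≤ Q := Nat.cast_nonneg q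
    have hM0 : 0 ≤ M := Nat.cast_nonneg m
    have hNQ : 0 < N - Q := by
      have : Q < N := by rw [hQ, hN]; exact_mod_cast hqn
      linarith
    have hT : 0 < D2 - N * M - 2 * (N * Q) := by
      have e1 : N * M ≤ N * (ε / 2 * N + 1) := mul_le_mul_of_nonneg_left hm2.le hn0.le
      have e2 : N * Q ≤ N * (ε * N / 16) := mul_le_mul_of_nonneg_left hq3 hn0.le
      have e3 : ε * N ^ 2 ≤ D2 := by linarith
      have e4 : N * 16 ≤ N * (ε * N) := mul_le_mul_of_nonneg_left hlarge hn0.le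
      nlinarith
    have hS1 : D2 - N * M - 2 * (N * Q) ≤ (N - W - Q) * (N - Q) := by
      nlinarith [sq_nonneg Q]
    have hS : 0 < N - W - Q := by
      by_contra hcon
      push Not at hcon
      have : (N - W - Q) * (N - Q) ≤ 0 := mul_nonpos_of_nonpos_of_nonneg hcon hNQ.le
      linarith
    have hwq : w + q < n := by
      have : ((w + q : ℕ) : ℝ) < n := by push_cast; linarith
      exact_mod_cast this
    have hr := sym_rank τ1 τ2 f g h H (m := m) (c := n - w) (q := q) (d1 := d1) (d2 := d2)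
      hmn (Nat.sub_le _ _) hqm (by omega) le_rfl le_rfl (by
        have e1 : n - (n - w) = w := by omega
        rw [e1, ← pow_two]
        clear_value d1 d2
        omega) (by
        have e1 : ((n - w - q : ℕ) : ℝ) = N - W - Q := by
          rw [Nat.cast_sub (by omega), Nat.cast_sub (by omega)]
        have e2 : ((m - q : ℕ) : ℝ) = M - Q := by
          rw [Nat.cast_sub (by omega)]
        have : ((n * (n * m) : ℕ) : ℝ) < ((m * d1 + n * ((m - q) * (n - w - q)) : ℕ) : ℝ) := by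
          rw [Nat.cast_mul, Nat.cast_mul, Nat.cast_add, Nat.cast_mul, Nat.cast_mul, Nat.cast_mul,
            e1, e2]
          show N * (N * M) < M * D1 + N * ((M - Q) * (N - W - Q))
          have hMQ : 0 ≤ M - Q := by
            have : ((q + 1 : ℕ) : ℝ) ≤ m := by exact_mod_cast hqm
            push_cast at this
            linarith
          have e3 : D2 - N * M - 2 * (N * Q) ≤ N * (N - W - Q) := by
            refine hS1.trans ?_
            rw [mul_comm]
            exact mul_le_mul_of_nonneg_right (by linarith) hS.le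
          have e4 : (M - Q) * (D2 - N * M - 2 * (N * Q)) ≤ N * ((M - Q) * (N - W - Q)) := by
            have := mul_le_mul_of_nonneg_left e3 hMQ
            linarith
          -- the main inequality
          have e5 : 5 / 16 * (ε * N) ≤ ε * N - M - 2 * Q := by linarith
          have e6 : ε / 2 * N * (5 / 16 * (ε * N)) ≤ M * (ε * N - M - 2 * Q) :=
            mul_le_mul hm1 e5 (by positivity) hM0
          have e7 : Q * N ≤ ε ^ 2 * N / 16 * N := mul_le_mul_of_nonneg_right hq1 hn0.le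
          have e8 : Q * N < M * (ε * N - M - 2 * Q) := by
            have : 0 < ε ^ 2 * N ^ 2 := by positivity
            nlinarith
          have e9 : N * (Q * N) < N * (M * (ε * N - M - 2 * Q)) := mul_lt_mul_of_pos_left e8 hn0
          have e10 : M * ((1 + ε) * N ^ 2) ≤ M * (D1 + D2) := mul_le_mul_of_nonneg_left hd hM0
          have e11 : Q * D2 ≤ Q * N ^ 2 := mul_le_mul_of_nonneg_left hd2r hQ0
          have e12 : 0 ≤ Q * (N * M) := by positivity
          have e13 : 0 ≤ Q * (N * Q) := by positivity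
          nlinarith
        exact_mod_cast this)
    have h2 := rk_le_of_hasRank (n := n) (c := 16 / ε ^ 2) (Nat.succ_pos q) (by
      push_cast
      rw [div_mul_eq_mul_div, le_div_iff₀ (by positivity)]
      nlinarith) hr
    exact h2

end

end Pool.Agent.N452.ON
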