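import Pool.Agent.N452.ON.Defs
import Pool.Agent.N452.ON.Form
import Pool.Agent.N452.ON.LinAlg2

/-!
# One number: the lower bound
-/

set_option linter.unusedSectionVars false

namespace Pool.Agent.N452.ON

open Pool.Agent.W966.Mm Pool.Agent.H515R2.MMR Pool.Agent.H53R3 Pool.Agent.W944.En Module
open MvPolynomial

lemma pd_comm {σ : Type} (i j : σ) (f : MvPolynomial σ ℂ) :
    pderiv i (pderiv j f) = pderiv j (pderiv i f) := by
  classical
  have h : ⁅(pderiv i : Derivation ℂ (MvPolynomial σ ℂ) (MvPolynomial σ ℂ)),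
      (pderiv j : Derivation ℂ (MvPolynomial σ ℂ) (MvPolynomial σ ℂ))⁆ = 0 := by
    refine MvPolynomial.derivation_ext fun a => ?_
    rw [Derivation.commutator_apply, pderiv_X, pderiv_X, Derivation.zero_apply]
    have e : ∀ b c : σ, pderiv b ((Pi.single a (1 : MvPolynomial σ ℂ) : σ → _) c) = 0 := by
      intro b c
      by_cases hc : c = a
      · subst hc; rw [Pi.single_eq_same]; exact pderiv_one
      · rw [Pi.single_eq_of_ne hc, map_zero]
    have e' : ∀ b c : σ, pderiv b ((Pi.single c (1 : MvPolynomial σ ℂ) : σ → _) a) = 0 := by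
      intro b c
      by_cases hc : a = c
      · subst hc; rw [Pi.single_eq_same]; exact pderiv_one
      · rw [Pi.single_eq_of_ne hc, map_zero]
    rw [e', e', sub_zero]
  have h2 := Derivation.congr_fun h f
  rw [Derivation.commutator_apply, Derivation.zero_apply] at h2
  exact sub_eq_zero.mp h2

section

variable {n : ℕ}

/-- The Hessian as a map of matrices, for the trace form. -/
noncomputable def hG (g : MvPolynomial (Fin n × Fin n) ℂ) (C : Matrix (Fin n) (Fin n) ℂ) :
    Matrix (Fin n) (Fin n) ℂ →ₗ[ℂ] Matrix (Fin n) (Fin n) ℂ where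
  toFun U := Matrix.of fun j i => ∑ q : Fin n × Fin n, hessM g C (i, j) q * U q.1 q.2
  map_add' U V := by
    refine Matrix.ext fun j i => ?_
    simp only [Matrix.of_apply, Matrix.add_apply, mul_add, Finset.sum_add_distrib]
  map_smul' c U := by
    refine Matrix.ext fun j i => ?_
    simp only [Matrix.of_apply, Matrix.smul_apply, smul_eq_mul, RingHom.id_apply, Finset.mul_sum]
    exact Finset.sum_congr rfl fun q _ => by ring

lemma hG_apply (g : MvPolynomial (Fin n × Fin n) ℂ) (C U : Matrix (Fin n) (Fin n) ℂ)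
    (j i : Fin n) : hG g C U j i = ∑ q : Fin n × Fin n, hessM g C (i, j) q * U q.1 q.2 := rfl

lemma hb_eq (g : MvPolynomial (Fin n × Fin n) ℂ) (C U V : Matrix (Fin n) (Fin n) ℂ) :
    hb g C U V = (hG g C U * V).trace := by
  rw [hb, Fintype.sum_prod_type]
  simp only [Matrix.trace, Matrix.diag_apply, Matrix.mul_apply, hG_apply, Finset.sum_mul]
  rw [Finset.sum_comm]
  refine Finset.sum_congr rfl fun j _ => Finset.sum_congr rfl fun i _ =>
    Finset.sum_congr rfl fun q _ => ?_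
  simp only [hessM, Matrix.of_apply]
  ring

lemma hb_symm (g : MvPolynomial (Fin n × Fin n) ℂ) (C U V : Matrix (Fin n) (Fin n) ℂ) :
    hb g C U V = hb g C V U := by
  rw [hb, hb, Finset.sum_comm]
  refine Finset.sum_congr rfl fun q _ => Finset.sum_congr rfl fun p _ => ?_
  rw [pd_comm q p]
  ring

lemma finrank_hG (g : MvPolynomial (Fin n × Fin n) ℂ) (C : Matrix (Fin n) (Fin n) ℂ) :
    (hessM g C).rank ≤ finrank ℂ (LinearMap.range (hG g C)) := by
  let toM : (Fin n × Fin n → ℂ) →ₗ[ℂ] Matrix (Fin n) (Fin n) ℂ :=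
    { toFun := fun v => Matrix.of fun i j => v (i, j)
      map_add' := fun _ _ => rfl
      map_smul' := fun _ _ => rfl }
  let frT : Matrix (Fin n) (Fin n) ℂ →ₗ[ℂ] (Fin n × Fin n → ℂ) :=
    { toFun := fun M p => M p.2 p.1
      map_add' := fun _ _ => rfl
      map_smul' := fun _ _ => rfl }
  have h1 : (hessM g C).mulVecLin = frT ∘ₗ (hG g C ∘ₗ toM) := by
    refine LinearMap.ext fun v => funext fun p => ?_
    rfl
  unfold Matrix.rank
  rw [h1, LinearMap.range_comp]
  refine (Submodule.finrank_map_le _ _).trans (Submodule.finrank_mono ?_)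
  rintro _ ⟨x, rfl⟩
  exact ⟨_, rfl⟩

/-- A polynomial which does not vanish only where the rank of the Hessian matrix is large. -/
lemma rank_poly (g : MvPolynomial (Fin n × Fin n) ℂ) (C₀ : Matrix (Fin n) (Fin n) ℂ) {ρ : ℕ}
    (hρ : ρ ≤ (hessM g C₀).rank) : ∃ R : MvPolynomial (Fin n × Fin n) ℂ, R ≠ 0 ∧
      ∀ C : Matrix (Fin n) (Fin n) ℂ, eval (fun r => C r.1 r.2) R ≠ 0 →
        ρ ≤ (hessM g C).rank := by
  classical
  set M := hessM g C₀ with hM
  obtain ⟨ι, π, hιπ⟩ := exists_retract (K := ℂ) (A := Fin ρ → ℂ)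
    (B := LinearMap.range M.mulVecLin) (by rw [finrank_fin_fun]; exact hρ)
  obtain ⟨σ, hσ⟩ := LinearMap.exists_rightInverse_of_surjective M.mulVecLin.rangeRestrict
    (LinearMap.range_rangeRestrict _)
  obtain ⟨L, hL⟩ := LinearMap.exists_leftInverse_of_injective
    (LinearMap.range M.mulVecLin).subtype (Submodule.ker_subtype _)
  set Pm : Matrix (Fin ρ) (Fin n × Fin n) ℂ := LinearMap.toMatrix' (π ∘ₗ L) with hPm
  set Qm : Matrix (Fin n × Fin n) (Fin ρ) ℂ := LinearMap.toMatrix' (σ ∘ₗ ι) with hQm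
  have hPQ : Pm * M * Qm = 1 := by
    have e : M = LinearMap.toMatrix' M.mulVecLin := (LinearMap.toMatrix'_toLin' M).symm
    calc Pm * M * Qm = LinearMap.toMatrix' (π ∘ₗ L) * LinearMap.toMatrix' M.mulVecLin *
        LinearMap.toMatrix' (σ ∘ₗ ι) := by rw [← e]
      _ = 1 := by
        rw [← LinearMap.toMatrix'_comp, ← LinearMap.toMatrix'_comp]
        have h2 : (((π ∘ₗ L) ∘ₗ M.mulVecLin) ∘ₗ σ ∘ₗ ι) = LinearMap.id := by
          refine LinearMap.ext fun x => ?_
          have h3 : M.mulVecLin (σ (ι x)) = ((ι x : LinearMap.range M.mulVecLin) :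
              Fin n × Fin n → ℂ) := by
            have := LinearMap.congr_fun hσ (ι x)
            exact congrArg Subtype.val this
          have h4 := LinearMap.congr_fun hL (ι x)
          have h5 := LinearMap.congr_fun hιπ x
          simp only [LinearMap.comp_apply, LinearMap.id_apply, Submodule.subtype_apply] at h4 h5
          simp only [LinearMap.comp_apply, h3, h4, h5, LinearMap.id_apply]
        rw [h2, LinearMap.toMatrix'_id]
  let HP : Matrix (Fin n × Fin n) (Fin n × Fin n) (MvPolynomial (Fin n × Fin n) ℂ) :=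
    Matrix.of fun p q => pderiv q (pderiv p g)
  let PP : Matrix (Fin ρ) (Fin n × Fin n) (MvPolynomial (Fin n × Fin n) ℂ) :=
    Pm.map MvPolynomial.C
  let QP : Matrix (Fin n × Fin n) (Fin ρ) (MvPolynomial (Fin n × Fin n) ℂ) :=
    Qm.map MvPolynomial.C
  have hdet : ∀ C : Matrix (Fin n) (Fin n) ℂ, eval (fun r : Fin n × Fin n => C r.1 r.2)
      (PP * HP * QP).det = (Pm * hessM g C * Qm).det := by
    intro C
    have e1 : PP.map (eval fun r : Fin n × Fin n => C r.1 r.2) = Pm := by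
      refine Matrix.ext fun a b => ?_
      simp [PP]
    have e2 : HP.map (eval fun r : Fin n × Fin n => C r.1 r.2) = hessM g C := by
      refine Matrix.ext fun a b => ?_
      simp only [Matrix.map_apply, HP, Matrix.of_apply, hessM]
    have e3 : QP.map (eval fun r : Fin n × Fin n => C r.1 r.2) = Qm := by
      refine Matrix.ext fun a b => ?_
      simp [QP]
    rw [RingHom.map_det, RingHom.mapMatrix_apply, Matrix.map_mul, Matrix.map_mul, e1, e2, e3]
  refine ⟨(PP * HP * QP).det, ?_, fun C hC => ?_⟩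
  · intro h0
    have h1 := hdet C₀
    rw [h0, map_zero, ← hM, hPQ, Matrix.det_one] at h1
    exact zero_ne_one h1
  · rw [hdet] at hC
    have h1 : (Pm * hessM g C * Qm).rank = ρ := by
      rw [Matrix.rank_of_isUnit _ ((Matrix.isUnit_iff_isUnit_det _).mpr
        (isUnit_iff_ne_zero.mpr hC)), Fintype.card_fin]
    calc ρ = (Pm * hessM g C * Qm).rank := h1.symm
      _ ≤ (Pm * hessM g C).rank := Matrix.rank_mul_le_left _ _
      _ ≤ (hessM g C).rank := Matrix.rank_mul_le_right _ _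

/-- The directions along which the product does not change. -/
def fib (X Y : Matrix (Fin n) (Fin n) ℂ) : Matrix (Fin n) (Fin n) ℂ →ₗ[ℂ] (Ent n → ℂ) where
  toFun Z := Sum.elim (fun p => (X * Z) p.1 p.2) (fun p => -((Z * Y) p.1 p.2))
  map_add' Z W := by
    funext i
    rcases i with p | p
    · simp only [Sum.elim_inl, Pi.add_apply, Matrix.mul_add, Matrix.add_apply]
    · simp only [Sum.elim_inr, Pi.add_apply, Matrix.add_mul, Matrix.add_apply]
      ring
  map_smul' c Z := by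
    funext i
    rcases i with p | p
    · simp only [Sum.elim_inl, Pi.smul_apply, Matrix.mul_smul, Matrix.smul_apply,
        RingHom.id_apply]
    · simp only [Sum.elim_inr, Pi.smul_apply, Matrix.smul_mul, Matrix.smul_apply,
        RingHom.id_apply, smul_eq_mul]
      ring

lemma mA_fib (X Y Z : Matrix (Fin n) (Fin n) ℂ) : mA (fib X Y Z) = X * Z := rfl

lemma mB_fib (X Y Z : Matrix (Fin n) (Fin n) ℂ) : mB (fib X Y Z) = -(Z * Y) := rfl

lemma dl_fib (X Y Z : Matrix (Fin n) (Fin n) ℂ) : dl X Y (fib X Y Z) = 0 := by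
  rw [dl_apply, mA_fib, mB_fib, mul_neg, ← mul_assoc, add_neg_cancel]

lemma bq_fib (X Y Z W : Matrix (Fin n) (Fin n) ℂ) :
    bq (fib X Y Z) (fib X Y W) = -(X * (Z * W + W * Z) * Y) := by
  rw [bq, mA_fib, mB_fib, mA_fib, mB_fib]
  noncomm_ring

/-- The rank of a composition. -/
lemma rank_comp {X V W : Type} [AddCommGroup X] [Module ℂ X] [AddCommGroup V] [Module ℂ V]
    [AddCommGroup W] [Module ℂ W] [FiniteDimensional ℂ X] [FiniteDimensional ℂ V]
    [FiniteDimensional ℂ W] (f : X →ₗ[ℂ] V) (ψ : V →ₗ[ℂ] W) :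
    finrank ℂ (LinearMap.range f) + finrank ℂ (LinearMap.range ψ) ≤
      finrank ℂ (LinearMap.range (ψ ∘ₗ f)) + finrank ℂ V := by
  have h1 := LinearMap.finrank_range_add_finrank_ker (ψ.domRestrict (LinearMap.range f))
  have h2 := LinearMap.finrank_range_add_finrank_ker ψ
  have h3 : LinearMap.range (ψ.domRestrict (LinearMap.range f)) = LinearMap.range (ψ ∘ₗ f) := by
    rw [LinearMap.range_domRestrict, LinearMap.range_comp]
  have h4 : finrank ℂ (LinearMap.ker (ψ.domRestrict (LinearMap.range f))) ≤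
      finrank ℂ (LinearMap.ker ψ) := by
    let j : LinearMap.ker (ψ.domRestrict (LinearMap.range f)) →ₗ[ℂ] LinearMap.ker ψ :=
      LinearMap.codRestrict _ ((LinearMap.range f).subtype ∘ₗ
        (LinearMap.ker (ψ.domRestrict (LinearMap.range f))).subtype) fun x => x.2
    refine LinearMap.finrank_le_finrank_of_injective (f := j) ?_
    intro x y hxy
    have := congrArg (fun z : LinearMap.ker ψ => (z : V)) hxy
    exact Subtype.ext (Subtype.ext this)
  rw [h3] at h1
  omega

lemma dl_surj {X Y : Matrix (Fin n) (Fin n) ℂ} (hY : IsUnit Y.det) :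
    Function.Surjective (dl X Y) := by
  intro M
  refine ⟨Sum.elim (fun p => (M * Y⁻¹) p.1 p.2) 0, ?_⟩
  have h1 : mA (Sum.elim (fun p : Fin n × Fin n => (M * Y⁻¹) p.1 p.2) 0 : Ent n → ℂ) =
      M * Y⁻¹ := rfl
  have h2 : mB (Sum.elim (fun p : Fin n × Fin n => (M * Y⁻¹) p.1 p.2) 0 : Ent n → ℂ) = 0 := rfl
  rw [dl_apply, h1, h2, mul_zero, add_zero, mul_assoc, Matrix.nonsing_inv_mul Y hY, mul_one]

/-- **The lower bound.** -/
theorem one_rk {s L : ℕ} {ε : ℝ} (hε : 0 < ε) (t : ETree ℂ n s)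
    (g : MvPolynomial (Fin n × Fin n) ℂ) (H : Determines t (fun _ : Fin 1 => g) L)
    (C₀ : Matrix (Fin n) (Fin n) ℂ)
    (hd : (s : ℝ) + ε * (n : ℝ) ^ 2 ≤ 2 * ((hessM g C₀).rank : ℝ)) :
    (rk n : ℝ) ≤ 6 * (64 / ε ^ 2 + 1) ^ 3 * L := by
  classical
  obtain ⟨R, hR, hR'⟩ := rank_poly g C₀ le_rfl
  set ρ := (hessM g C₀).rank with hρ
  obtain ⟨X, Y, N, l, f1, f2, f3, hX, hY, hRC, hl, hN, hform⟩ := det_form t g H R hR
  have hrank := hR' (X * Y) hRC
  -- `ψ U = Y * G U * X`
  let ψ : Matrix (Fin n) (Fin n) ℂ →ₗ[ℂ] Matrix (Fin n) (Fin n) ℂ :=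
    mulRightLinearMap (Fin n) ℂ X ∘ₗ mulLeftLinearMap (Fin n) ℂ Y ∘ₗ hG g (X * Y)
  have hψ : ∀ U, ψ U = Y * hG g (X * Y) U * X := fun _ => rfl
  have hψr : ρ ≤ finrank ℂ (LinearMap.range ψ) := by
    have h1 : hG g (X * Y) = mulRightLinearMap (Fin n) ℂ X⁻¹ ∘ₗ
        mulLeftLinearMap (Fin n) ℂ Y⁻¹ ∘ₗ ψ := by
      refine LinearMap.ext fun U => ?_
      show hG g (X * Y) U = Y⁻¹ * (Y * hG g (X * Y) U * X) * X⁻¹
      rw [mul_assoc Y, ← mul_assoc Y⁻¹, Matrix.nonsing_inv_mul Y hY, one_mul, mul_assoc,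
        Matrix.mul_nonsing_inv X hX, mul_one]
    have h2 : finrank ℂ (LinearMap.range (hG g (X * Y))) ≤ finrank ℂ (LinearMap.range ψ) := by
      rw [h1, LinearMap.range_comp, LinearMap.range_comp]
      exact (Submodule.finrank_map_le _ _).trans (Submodule.finrank_map_le _ _)
    exact hrank.trans ((finrank_hG g (X * Y)).trans h2)
  -- the basic formula
  have hkey : ∀ (ξ : Ent n → ℂ) (Z W : Matrix (Fin n) (Fin n) ℂ),
      hb g (X * Y) (dl X Y ξ) (bq (fib X Y Z) (fib X Y W)) =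
        -(ψ (dl X Y ξ) * (Z * W + W * Z)).trace := by
    intro ξ Z W
    rw [hb_eq, bq_fib, hψ, Matrix.mul_neg, Matrix.trace_neg]
    congr 1
    have e1 : hG g (X * Y) (dl X Y ξ) * (X * (Z * W + W * Z) * Y) =
        (hG g (X * Y) (dl X Y ξ) * X * (Z * W + W * Z)) * Y := by
      simp only [Matrix.mul_assoc]
    rw [e1, Matrix.trace_mul_comm]
    simp only [Matrix.mul_assoc]
  have hn2 : finrank ℂ (Matrix (Fin n) (Fin n) ℂ) = n ^ 2 := by
    rw [Module.finrank_matrix, Module.finrank_self, Fintype.card_fin, mul_one, pow_two]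
  -- directions in `N` along which the product does not change
  set d' := finrank ℂ (LinearMap.ker (dl X Y ∘ₗ N.subtype)) with hd'
  have hcard : Fintype.card (Fin l × Fin 6) = 6 * l := by
    rw [Fintype.card_prod, Fintype.card_fin, Fintype.card_fin, mul_comm]
  have hfin : ∀ (hr : (rk n : ℝ) ≤ (16 / (ε / 2) ^ 2 + 1) ^ 3 *
      (Fintype.card (Fin l × Fin 6) : ℕ)), (rk n : ℝ) ≤ 6 * (64 / ε ^ 2 + 1) ^ 3 * L := by
    intro hr
    rw [hcard] at hr
    refine hr.trans ?_
    have e1 : (16 / (ε / 2) ^ 2 + 1 : ℝ) = 64 / ε ^ 2 + 1 := by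
      field_simp
      ring
    rw [e1]
    push_cast
    have e2 : (l : ℝ) ≤ L := by exact_mod_cast hl
    have e3 : (0 : ℝ) ≤ (64 / ε ^ 2 + 1) ^ 3 := by positivity
    nlinarith
  have hNr : 2 * (n : ℝ) ^ 2 ≤ (finrank ℂ N : ℝ) + s := by exact_mod_cast hN
  have hN1 := LinearMap.finrank_range_add_finrank_ker (dl X Y ∘ₗ N.subtype)
  rcases le_or_gt (finrank ℂ N) (2 * d') with hcase | hcase
  · -- many directions along which the product does not change
    let 𝒵 : Submodule ℂ (Matrix (Fin n) (Fin n) ℂ) := N.comap (fib X Y)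
    have hZ : d' ≤ finrank ℂ 𝒵 := by
      let aL : (Ent n → ℂ) →ₗ[ℂ] Matrix (Fin n) (Fin n) ℂ :=
        { toFun := fun ξ => X⁻¹ * mA ξ
          map_add' := fun ξ η => by
            have : mA (ξ + η) = mA ξ + mA η := rfl
            rw [this, mul_add]
          map_smul' := fun c ξ => by
            have : mA (c • ξ) = c • mA ξ := rfl
            rw [this, Matrix.mul_smul]
            rfl }
      have haL : ∀ ξ, dl X Y ξ = 0 → fib X Y (aL ξ) = ξ := by
        intro ξ hξ
        have h1 : X * (X⁻¹ * mA ξ) = mA ξ := by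
          rw [← mul_assoc, Matrix.mul_nonsing_inv X hX, one_mul]
        have h2 : -(X⁻¹ * mA ξ * Y) = mB ξ := by
          rw [dl_apply] at hξ
          have h3 : mA ξ * Y = -(X * mB ξ) := eq_neg_of_add_eq_zero_left hξ
          rw [mul_assoc, h3, mul_neg, neg_neg, ← mul_assoc, Matrix.nonsing_inv_mul X hX,
            one_mul]
        funext i
        rcases i with p | p
        · exact congrFun (congrFun h1 p.1) p.2
        · exact congrFun (congrFun h2 p.1) p.2
      let j : LinearMap.ker (dl X Y ∘ₗ N.subtype) →ₗ[ℂ] 𝒵 :=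
        LinearMap.codRestrict _ (aL ∘ₗ N.subtype ∘ₗ
          (LinearMap.ker (dl X Y ∘ₗ N.subtype)).subtype) fun x => by
            show fib X Y (aL x.1.1) ∈ N
            rw [haL x.1.1 x.2]
            exact x.1.2
      refine LinearMap.finrank_le_finrank_of_injective (f := j) ?_
      intro x y hxy
      have h1 : aL x.1.1 = aL y.1.1 := congrArg (fun z : 𝒵 => (z : Matrix (Fin n) (Fin n) ℂ)) hxy
      have h2 : x.1.1 = y.1.1 := by
        rw [← haL x.1.1 x.2, ← haL y.1.1 y.2]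
        exact congrArg (fib X Y) h1
      exact Subtype.ext (Subtype.ext h2)
    refine hfin (sym_rk (ε := ε / 2) (by positivity) (-(ψ ∘ₗ dl X Y)) 𝒵.subtype
      (fun i => f3 i) (fun i => f1 i ∘ₗ fib X Y ∘ₗ 𝒵.subtype) (fun i => f2 i ∘ₗ fib X Y) ?_ ?_)
    · intro ζ Z B
      have e1 := hform (fib X Y Z) Z.2 (fib X Y B) ζ (dl_fib X Y B)
      rw [dl_fib] at e1
      have e2 : hb g (X * Y) 0 (bq (fib X Y B) ζ) = 0 := by
        rw [hb_eq, map_zero, Matrix.zero_mul, Matrix.trace_zero]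
      rw [e2, zero_add, hb_symm, hkey] at e1
      rw [LinearMap.neg_apply, Matrix.neg_mul, Matrix.trace_neg]
      show -(ψ (dl X Y ζ) * ((Z : Matrix (Fin n) (Fin n) ℂ) * B + B * Z)).trace = _
      rw [e1]
      refine Finset.sum_congr rfl fun i _ => ?_
      simp only [LinearMap.comp_apply, Submodule.subtype_apply]
      ring
    · have h1 : ρ ≤ finrank ℂ (LinearMap.range (-(ψ ∘ₗ dl X Y))) := by
        rw [LinearMap.range_neg, LinearMap.range_comp_of_range_eq_top _
          (LinearMap.range_eq_top.mpr (dl_surj hY))]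
        exact hψr
      have h2 : d' ≤ finrank ℂ (LinearMap.range 𝒵.subtype) := by
        rw [Submodule.range_subtype]
        exact hZ
      have h1' : (ρ : ℝ) ≤ finrank ℂ (LinearMap.range (-(ψ ∘ₗ dl X Y))) := by exact_mod_cast h1
      have h2' : (d' : ℝ) ≤ finrank ℂ (LinearMap.range 𝒵.subtype) := by exact_mod_cast h2
      have h3 : (finrank ℂ N : ℝ) ≤ 2 * d' := by exact_mod_cast hcase
      have h4 : (1 + ε / 2) * (n : ℝ) ^ 2 = (n : ℝ) ^ 2 + ε * (n : ℝ) ^ 2 / 2 := by ring
      rw [h4]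
      linarith
  · -- few such directions
    refine hfin (sym_rk (ε := ε / 2) (by positivity) (-(ψ ∘ₗ (dl X Y ∘ₗ N.subtype)))
      (LinearMap.id : Matrix (Fin n) (Fin n) ℂ →ₗ[ℂ] _)
      (fun i => f1 i ∘ₗ N.subtype) (fun i => f2 i ∘ₗ fib X Y) (fun i => f3 i ∘ₗ fib X Y) ?_ ?_)
    · intro ξ Z B
      have e1 := hform ξ ξ.2 (fib X Y Z) (fib X Y B) (dl_fib X Y Z)
      rw [dl_fib] at e1
      have e2 : hb g (X * Y) (bq ξ (fib X Y Z)) 0 = 0 := by
        rw [hb_eq, Matrix.mul_zero, Matrix.trace_zero]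
      rw [e2, add_zero, hkey] at e1
      rw [LinearMap.neg_apply, Matrix.neg_mul, Matrix.trace_neg, LinearMap.id_apply]
      show -(ψ (dl X Y ξ) * (Z * B + B * Z)).trace = _
      rw [e1]
      rfl
    · have h1 : finrank ℂ (LinearMap.range (dl X Y ∘ₗ N.subtype)) + ρ ≤
          finrank ℂ (LinearMap.range (-(ψ ∘ₗ (dl X Y ∘ₗ N.subtype)))) + n ^ 2 := by
        rw [LinearMap.range_neg, ← hn2]
        exact (Nat.add_le_add_left hψr _).trans (rank_comp (dl X Y ∘ₗ N.subtype) ψ)
      have h2 : finrank ℂ (LinearMap.range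
          (LinearMap.id : Matrix (Fin n) (Fin n) ℂ →ₗ[ℂ] Matrix (Fin n) (Fin n) ℂ)) = n ^ 2 := by
        rw [LinearMap.range_id, finrank_top, hn2]
      rw [h2]
      have h3 : finrank ℂ N ≤ finrank ℂ (LinearMap.range (dl X Y ∘ₗ N.subtype)) + d' := by
        rw [hd']
        omega
      have h1' : (finrank ℂ (LinearMap.range (dl X Y ∘ₗ N.subtype)) : ℝ) + ρ ≤
          finrank ℂ (LinearMap.range (-(ψ ∘ₗ (dl X Y ∘ₗ N.subtype)))) + (n : ℝ) ^ 2 := by
        exact_mod_cast h1
      have h3' : (finrank ℂ N : ℝ) ≤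
          finrank ℂ (LinearMap.range (dl X Y ∘ₗ N.subtype)) + (d' : ℝ) := by exact_mod_cast h3
      have h4 : 2 * (d' : ℝ) ≤ finrank ℂ N := by exact_mod_cast hcase.le
      have h5 : (1 + ε / 2) * (n : ℝ) ^ 2 = (n : ℝ) ^ 2 + ε * (n : ℝ) ^ 2 / 2 := by ring
      rw [h5]
      push_cast
      linarith

end

end Pool.Agent.N452.ON
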