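import Pool.Agent.N452.ON.Rel
import Pool.Agent.W944.En.Main

/-!
# The generic point
-/

set_option linter.unusedSectionVars false

namespace Pool.Agent.N452.ON

open Pool.Agent.W966.Mm Pool.Agent.H515R2.MMR Pool.Agent.H53R3 Pool.Agent.W944.En Module
open MvPolynomial

/-- The first matrix of a pair. -/
def mA {R : Type} {n : ℕ} (ξ : Ent n → R) : Matrix (Fin n) (Fin n) R :=
  Matrix.of fun x y => ξ (Sum.inl (x, y))

/-- The second matrix of a pair. -/
def mB {R : Type} {n : ℕ} (ξ : Ent n → R) : Matrix (Fin n) (Fin n) R :=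
  Matrix.of fun x y => ξ (Sum.inr (x, y))

lemma entries_mA {n : ℕ} (z : Ent n → ℂ) : entries (mA z) (mB z) = z := by
  funext p
  rcases p with p | p <;> rfl

/-- **The generic point.** -/
theorem gen_point {n s L : ℕ} (t : ETree ℂ n s) (g : MvPolynomial (Fin n × Fin n) ℂ)
    (H : Determines t (fun _ : Fin 1 => g) L) (P1 : MvPolynomial (Ent n) ℂ) (hP1 : P1 ≠ 0) :
    ∃ (k : Subfield ℂ) (t0 : ETree k n s) (g0 : MvPolynomial (Fin n × Fin n) k) (z : Ent n → ℂ)
      (o : Fin s → ℂ) (f : MvPolynomial (Option (Fin s)) k),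
      t0.tmap k.subtype = t ∧ MvPolynomial.map k.subtype g0 = g ∧ AlgebraicIndependent k z ∧
      eval z P1 ≠ 0 ∧ t.Can (mA z) (mB z) (fun o' => o' = o) 0 0 L 0 ∧
      aeval (pto o (aeval (fun p : Fin n × Fin n => (mA z * mB z) p.1 p.2) g0)) f = 0 ∧
      aeval (pto o (aeval (fun p : Fin n × Fin n => (mA z * mB z) p.1 p.2) g0))
        (pderiv none f) ≠ 0 := by
  classical
  obtain ⟨P2, dec, hP2, hdec, H⟩ := H
  set P : MvPolynomial (Ent n) ℂ := P2 * P1 with hPdef
  have hP : P ≠ 0 := mul_ne_zero hP2 hP1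
  -- a countable field of definition
  obtain ⟨S1, hS1, hS1'⟩ := tree_desc t
  obtain ⟨S2, hS2, hS2'⟩ := poly_desc P
  obtain ⟨S3, hS3, hS3'⟩ := poly_desc g
  set k : Subfield ℂ := Subfield.closure (S1 ∪ S2 ∪ S3) with hk
  have hkc : Countable k := by
    rw [← Cardinal.mk_le_aleph0_iff]
    refine (Subfield.cardinalMk_closure_le_max _).trans (max_le ?_ le_rfl)
    rw [Cardinal.mk_le_aleph0_iff]
    exact ((hS1.union hS2).union hS3).to_subtype
  have hsub : S1 ∪ S2 ∪ S3 ⊆ (k : Set ℂ) := Subfield.subset_closure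
  obtain ⟨t0, ht0⟩ := hS1' k fun x hx => hsub (Or.inl (Or.inl hx))
  obtain ⟨P0, hP0⟩ := hS2' k fun x hx => hsub (Or.inl (Or.inr hx))
  obtain ⟨g0, hg0⟩ := hS3' k fun x hx => hsub (Or.inr hx)
  -- a generic point
  obtain ⟨z, hz⟩ := exists_indep k (Ent n)
  set A : Matrix (Fin n) (Fin n) ℂ := mA z with hA
  set B : Matrix (Fin n) (Fin n) ℂ := mB z with hB
  have hAB : entries A B = z := entries_mA z
  have hevk : ∀ {κ : Type} (w : κ → ℂ) (G : MvPolynomial κ k),
      eval w (MvPolynomial.map k.subtype G) = aeval w G := by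
    intro κ w G
    rw [eval_map]
    rfl
  have hPz : eval (entries A B) P ≠ 0 := by
    rw [hAB, ← hP0, hevk]
    intro h0
    have : P0 = 0 := hz (h0.trans (map_zero _).symm)
    exact hP (by rw [← hP0, this, map_zero])
  have hPz2 : eval (entries A B) P2 ≠ 0 := by
    intro h0
    apply hPz
    rw [hPdef, map_mul, h0, zero_mul]
  have hPz1 : eval z P1 ≠ 0 := by
    intro h0
    apply hPz
    rw [hPdef, map_mul, hAB, h0, mul_zero]
  obtain ⟨hcan, -⟩ := H A B hPz2
  obtain ⟨o, -, ho⟩ := can_exists t 0 0 L 0 hcan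
  set C := A * B with hC
  set cv : Fin n × Fin n → ℂ := fun p => C p.1 p.2 with hcv
  set y : ℂ := aeval cv g0 with hy
  -- conjugates
  set R := Algebra.adjoin k (Set.range o) with hR
  have hRc : Countable R := by
    have h1 : Function.Surjective (fun p : MvPolynomial (Fin s) k =>
        (⟨aeval o p, by
          rw [hR, Algebra.adjoin_range_eq_range_aeval]; exact ⟨p, rfl⟩⟩ : R)) := by
      rintro ⟨x, hx⟩
      have hx' := hx
      rw [hR, Algebra.adjoin_range_eq_range_aeval] at hx'
      obtain ⟨p, hp⟩ := hx'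
      exact ⟨p, Subtype.ext hp⟩
    have h2 : Countable (MvPolynomial (Fin s) k) := by
      rw [← Cardinal.mk_le_aleph0_iff]
      exact MvPolynomial.cardinalMk_le_max.trans (max_le (max_le
        (Cardinal.mk_le_aleph0_iff.mpr inferInstance)
        (Cardinal.mk_le_aleph0_iff.mpr inferInstance)) le_rfl)
    exact h1.countable
  have halg : IsAlgebraic R y := by
    refine algebraic_of_countable y ((fun v : Fin 1 → ℂ => v 0) '' dec o)
      ((hdec o).image _) fun τ hτ => ?_
    have hτk : ∀ c : k, τ (c : ℂ) = c := fun c => hτ (algebraMap k R c)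
    have hτo : (fun a => τ (o a)) = o := by
      funext a
      exact hτ ⟨o a, Algebra.subset_adjoin ⟨a, rfl⟩⟩
    have hrun := can_map τ t 0 0 L 0 ho
    have e1 : t.tmap τ = t := by
      have e2 : ∀ t1 : ETree k n s, (t1.tmap k.subtype).tmap τ = t1.tmap k.subtype := by
        have e3 : ∀ f : Lin k n, lmap τ (lmap k.subtype f) = lmap k.subtype f := by
          intro f
          simp only [lmap]
          congr 1
          · exact hτk _
          · funext i j; exact hτk _
          · funext i j; exact hτk _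
          · funext i; exact hτk _
        intro t1
        induction t1 with
        | output M => simp only [ETree.tmap, e3]
        | mul f h next ih => simp only [ETree.tmap, e3, ih]
        | div f h next ih => simp only [ETree.tmap, e3, ih]
        | query next ih => simp only [ETree.tmap, ih]
        | test f yes no ihy ihn => simp only [ETree.tmap, e3, ihy, ihn]
        | choose r next ih => simp only [ETree.tmap, ih]
      rw [← ht0, e2]
    rw [e1, hτo] at hrun
    have hrun' : t.Can (A.map τ) (B.map τ) (fun o' => o' = o) 0 0 L 0 := by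
      have e4 : (fun s : ℕ => τ ((0 : ℕ → ℂ) s)) = 0 := by
        funext s; exact map_zero τ
      rw [e4] at hrun
      exact hrun
    have hτev : ∀ {κ : Type} (w : κ → ℂ) (G : MvPolynomial κ k),
        τ (aeval w G) = aeval (fun i => τ (w i)) G := by
      intro κ w G
      have e5 : (τ.comp (aeval w : MvPolynomial κ k →ₐ[k] ℂ).toRingHom) =
          (aeval (fun i => τ (w i)) : MvPolynomial κ k →ₐ[k] ℂ).toRingHom := by
        refine MvPolynomial.ringHom_ext (fun c => ?_) (fun i => ?_)
        · simp only [RingHom.comp_apply, AlgHom.toRingHom_eq_coe, AlgHom.coe_toRingHom,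
            MvPolynomial.algHom_C]
          exact hτk c
        · simp
      exact RingHom.congr_fun e5 G
    have hP' : eval (entries (A.map τ) (B.map τ)) P ≠ 0 := by
      have e6 : entries (A.map τ) (B.map τ) = fun i => τ (z i) := by
        funext p
        rcases p with p | p <;> rfl
      rw [e6, ← hP0, hevk, ← hτev]
      rw [hAB, ← hP0, hevk] at hPz
      exact (map_ne_zero τ).mpr hPz
    have hP2' : eval (entries (A.map τ) (B.map τ)) P2 ≠ 0 := by
      intro h0
      apply hP'
      rw [hPdef, map_mul, h0, zero_mul]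
    have hmem := (H _ _ hP2').2 o hrun'
    refine ⟨_, hmem, ?_⟩
    show eval (fun p => (A.map τ * B.map τ) p.1 p.2) g = τ y
    rw [← Matrix.map_mul, ← hg0, hevk, hy, hτev]
    rfl
  obtain ⟨f, hf1, hf2⟩ := alg_rel o y halg
  exact ⟨k, t0, g0, z, o, f, ht0, hg0, hz, hPz1, ho, hf1, hf2⟩

end Pool.Agent.N452.ON
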