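import Pool.Agent.N452.ON.Tri

/-!
# Third derivatives of a quantity which is algebraic over the outputs
-/

set_option linter.unusedSectionVars false

namespace Pool.Agent.N452.ON

open Pool.Agent.W966.Mm Pool.Agent.H53R3 Pool.Agent.W944.En MvPolynomial

lemma sum_swap {F ι : Type} [Field F] [Fintype ι] (l : ℕ) (g : ι → F) (w : ι → ℕ → F)
    (Y : ℕ → F) : ∑ i, g i * ∑ t ∈ Finset.range l, w i t * Y t =
      ∑ t ∈ Finset.range l, (∑ i, g i * w i t) * Y t := by
  simp only [Finset.mul_sum, Finset.sum_mul]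
  rw [Finset.sum_comm]
  exact Finset.sum_congr rfl fun t _ => Finset.sum_congr rfl fun i _ => by ring

section

variable {κ F k : Type} [Field F] [Field k] [Algebra k F] [Fintype κ] (D : κ → F → F)
  (hD : ∀ i, IsDer (D i)) (hc : ∀ i (c : k), D i (algebraMap k F c) = 0)

/-- The gradient. -/
def gr (z : F) : κ → F := fun i => D i z

include hD hc

/-- **Third derivatives of a quantity which is algebraic over the outputs.** -/
theorem rel_third {s l : ℕ} (x : Option (Fin s) → F) (f : MvPolynomial (Option (Fin s)) k)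
    (h0 : aeval x f = 0) (h1 : aeval x (pderiv none f) ≠ 0) (p q : ℕ → κ → F)
    (ho2 : ∀ a, ∃ c : ℕ → F, Hs D (x (some a)) = ∑ t ∈ Finset.range l, c t • Sym (p t) (q t))
    (ho3 : ∀ a, ∃ y : ℕ → κ → F, Ts D (x (some a)) =
      ∑ t ∈ Finset.range l, S3 (y t) (Sym (p t) (q t))) :
    ∃ α β γ : ℕ → κ → F, ∀ ξ : κ → F, (∀ a, c1 ξ (gr D (x (some a))) = 0) →
      c1 ξ (gr D (x none)) = 0 ∧ ∀ η ζ : κ → F, c3 ξ η ζ (Ts D (x none)) =
        ∑ t ∈ Finset.range l, (c1 ξ (α t) * c2 η ζ (Sym (p t) (q t)) +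
          c1 η (β t) * c2 ξ ζ (Sym (p t) (q t)) + c1 ζ (γ t) * c2 ξ η (Sym (p t) (q t))) := by
  classical
  choose c hc2 using ho2
  choose y hy3 using ho3
  have hopt : ∀ f : Option (Fin s) → F, ∑ j, f j = f none + ∑ a, f (some a) :=
    fun f => Fintype.sum_option f
  set F0 : F := aeval x (pderiv none f) with hF0
  set fa : Option (Fin s) → F := fun u => aeval x (pderiv u f) with hfa
  set fab : Option (Fin s) → Option (Fin s) → F :=
    fun u v => aeval x (pderiv v (pderiv u f)) with hfab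
  set cc : Option (Fin s) → ℕ → F := fun u t =>
    u.elim (- F0⁻¹ * ∑ a, fa (some a) * c a t) (fun a => c a t) with hcc
  have hccn : ∀ t, cc none t = - F0⁻¹ * ∑ a, fa (some a) * c a t := fun _ => rfl
  have hccs : ∀ a t, cc (some a) t = c a t := fun _ _ => rfl
  set α : ℕ → κ → F := fun t => (- F0⁻¹) • ∑ a, fa (some a) • y a t with hα
  set β : ℕ → κ → F := fun t => α t + (- F0⁻¹) • ∑ u, ∑ v, (fab u v * cc u t) • gr D (x v)
    with hβ
  set γ : ℕ → κ → F := fun t => α t + (- F0⁻¹) • ∑ u, ∑ v, (fab u v * cc v t) • gr D (x u)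
    with hγ
  have hzero : aeval x f = 0 := h0
  refine ⟨α, β, γ, fun ξ hξ => ?_⟩
  -- order one
  have hz1 : ∀ u, c1 ξ (gr D (x u)) = 0 := by
    have e1 : c1 ξ (gr D (aeval x f)) = ∑ u, fa u * c1 ξ (gr D (x u)) := by
      have : gr D (aeval x f) = ∑ u, fa u • gr D (x u) := by
        funext i
        rw [Finset.sum_apply]
        exact chain1 D hD hc x f i
      rw [this, map_sum]
      simp only [map_smul, smul_eq_mul]
    have e2 : gr D (aeval x f) = 0 := by
      rw [hzero]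
      funext i
      exact (hD i).zero
    rw [e2, map_zero, hopt] at e1
    simp only [hξ, mul_zero, Finset.sum_const_zero, add_zero] at e1
    intro u
    rcases u with _ | a
    · rcases mul_eq_zero.mp e1.symm with h | h
      · exact absurd h h1
      · exact h
    · exact hξ a
  refine ⟨hz1 none, ?_⟩
  -- order two
  have hz2 : ∀ η u, c2 ξ η (Hs D (x u)) =
      ∑ t ∈ Finset.range l, cc u t * c2 ξ η (Sym (p t) (q t)) := by
    intro η
    have hs : ∀ a, c2 ξ η (Hs D (x (some a))) =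
        ∑ t ∈ Finset.range l, c a t * c2 ξ η (Sym (p t) (q t)) := by
      intro a
      rw [hc2, map_sum]
      simp only [map_smul, smul_eq_mul]
    intro u
    rcases u with _ | a
    · have e1 := congrArg (c2 ξ η) (chain2 D hD hc x f)
      rw [hzero, Hs_zero D hD, map_zero, map_add, map_sum, map_sum] at e1
      simp only [map_sum, map_smul, smul_eq_mul] at e1
      have e2 : ∀ u v, c2 ξ η (fun i j => D i (x u) * D j (x v)) = 0 := by
        intro u v
        have := c2_outer ξ η (gr D (x u)) (gr D (x v))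
        rw [hz1, zero_mul] at this
        exact this
      simp only [e2, mul_zero, Finset.sum_const_zero, add_zero] at e1
      rw [hopt] at e1
      simp only [hs] at e1
      rw [sum_swap] at e1
      have e3 : c2 ξ η (Hs D (x none)) = - F0⁻¹ * ∑ t ∈ Finset.range l,
          (∑ a, fa (some a) * c a t) * c2 ξ η (Sym (p t) (q t)) := by
        have e4 : F0 * c2 ξ η (Hs D (x none)) = - ∑ t ∈ Finset.range l,
          (∑ a, fa (some a) * c a t) * c2 ξ η (Sym (p t) (q t)) :=
          eq_neg_of_add_eq_zero_left e1.symm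
        rw [neg_mul, ← mul_neg, ← e4, inv_mul_cancel_left₀ h1]
      rw [e3, Finset.mul_sum]
      refine Finset.sum_congr rfl fun t _ => ?_
      rw [hccn]
      ring
    · exact hs a
  -- order three
  intro η ζ
  have e1 := congrArg (c3 ξ η ζ) (chain3 D hD hc x f)
  rw [hzero, Ts_zero D hD, map_zero, map_add, map_add] at e1
  simp only [map_sum, map_smul, smul_eq_mul, map_add] at e1
  have t1 : ∀ u v, c3 ξ η ζ (fun i j r => D i (x v) * Hs D (x u) j r) = 0 := by
    intro u v
    have := c3_a ξ η ζ (gr D (x v)) (Hs D (x u))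
    rw [hz1, zero_mul] at this
    exact this
  have t2 : ∀ u v, c3 ξ η ζ (fun i j r => D j (x v) * Hs D (x u) i r) =
      c1 η (gr D (x v)) * ∑ t ∈ Finset.range l, cc u t * c2 ξ ζ (Sym (p t) (q t)) := by
    intro u v
    rw [← hz2]
    exact c3_b ξ η ζ (gr D (x v)) (Hs D (x u))
  have t3 : ∀ u v, c3 ξ η ζ (fun i j r => D r (x u) * Hs D (x v) i j) =
      c1 ζ (gr D (x u)) * ∑ t ∈ Finset.range l, cc v t * c2 ξ η (Sym (p t) (q t)) := by
    intro u v
    rw [← hz2]
    exact c3_c ξ η ζ (gr D (x u)) (Hs D (x v))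
  have t4 : ∀ u v w, c3 ξ η ζ (fun i j r => D i (x w) * (D j (x v) * D r (x u))) = 0 := by
    intro u v w
    have := c3_a ξ η ζ (gr D (x w)) (fun j r => D j (x v) * D r (x u))
    rw [hz1, zero_mul] at this
    exact this
  simp only [t1, t2, t3, t4, mul_zero, Finset.sum_const_zero, add_zero, zero_add] at e1
  rw [hopt] at e1
  have hs3 : ∀ a, c3 ξ η ζ (Ts D (x (some a))) = ∑ t ∈ Finset.range l,
      (c1 ξ (y a t) * c2 η ζ (Sym (p t) (q t)) + c1 η (y a t) * c2 ξ ζ (Sym (p t) (q t)) +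
        c1 ζ (y a t) * c2 ξ η (Sym (p t) (q t))) := by
    intro a
    rw [hy3, map_sum]
    exact Finset.sum_congr rfl fun t _ => c3_S3 _ _ _ _ _
  -- the right side
  have r1 : ∀ (ω : κ → F) (Y : ℕ → F), ∑ t ∈ Finset.range l, c1 ω (α t) * Y t =
      - F0⁻¹ * ∑ a, fa (some a) * ∑ t ∈ Finset.range l, c1 ω (y a t) * Y t := by
    intro ω Y
    rw [sum_swap, Finset.mul_sum]
    refine Finset.sum_congr rfl fun t _ => ?_
    simp only [hα, map_smul, map_sum, smul_eq_mul]
    ring
  have r2 : ∀ (ω : κ → F) (Y : ℕ → F), ∑ t ∈ Finset.range l,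
      c1 ω (∑ u, ∑ v, (fab u v * cc u t) • gr D (x v)) * Y t =
      ∑ u, ∑ v, fab u v * (c1 ω (gr D (x v)) * ∑ t ∈ Finset.range l, cc u t * Y t) := by
    intro ω Y
    simp only [map_sum, map_smul, smul_eq_mul, Finset.sum_mul, Finset.mul_sum]
    rw [Finset.sum_comm]
    refine Finset.sum_congr rfl fun u _ => ?_
    rw [Finset.sum_comm]
    exact Finset.sum_congr rfl fun v _ => Finset.sum_congr rfl fun t _ => by ring
  have r3 : ∀ (ω : κ → F) (Y : ℕ → F), ∑ t ∈ Finset.range l,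
      c1 ω (∑ u, ∑ v, (fab u v * cc v t) • gr D (x u)) * Y t =
      ∑ u, ∑ v, fab u v * (c1 ω (gr D (x u)) * ∑ t ∈ Finset.range l, cc v t * Y t) := by
    intro ω Y
    simp only [map_sum, map_smul, smul_eq_mul, Finset.sum_mul, Finset.mul_sum]
    rw [Finset.sum_comm]
    refine Finset.sum_congr rfl fun u _ => ?_
    rw [Finset.sum_comm]
    exact Finset.sum_congr rfl fun v _ => Finset.sum_congr rfl fun t _ => by ring
  have hβc : ∀ (ω : κ → F) t, c1 ω (β t) = c1 ω (α t) +
      - F0⁻¹ * c1 ω (∑ u, ∑ v, (fab u v * cc u t) • gr D (x v)) := by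
    intro ω t
    simp only [hβ, map_add, map_smul, smul_eq_mul]
  have hγc : ∀ (ω : κ → F) t, c1 ω (γ t) = c1 ω (α t) +
      - F0⁻¹ * c1 ω (∑ u, ∑ v, (fab u v * cc v t) • gr D (x u)) := by
    intro ω t
    simp only [hγ, map_add, map_smul, smul_eq_mul]
  have hR : ∑ t ∈ Finset.range l, (c1 ξ (α t) * c2 η ζ (Sym (p t) (q t)) +
          c1 η (β t) * c2 ξ ζ (Sym (p t) (q t)) + c1 ζ (γ t) * c2 ξ η (Sym (p t) (q t))) =
      - F0⁻¹ * (∑ a, fa (some a) * c3 ξ η ζ (Ts D (x (some a))) +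
        ∑ u, ∑ v, fab u v * (c1 η (gr D (x v)) * ∑ t ∈ Finset.range l,
          cc u t * c2 ξ ζ (Sym (p t) (q t)) + c1 ζ (gr D (x u)) * ∑ t ∈ Finset.range l,
          cc v t * c2 ξ η (Sym (p t) (q t)))) := by
    simp only [hs3, hβc, hγc, add_mul, Finset.sum_add_distrib, mul_add, mul_assoc]
    rw [r1, r1, r1, ← Finset.mul_sum, ← Finset.mul_sum, r2, r3]
    ring
  rw [hR]
  have e4 : F0 * c3 ξ η ζ (Ts D (x none)) = - (∑ a, fa (some a) * c3 ξ η ζ (Ts D (x (some a))) +
        ∑ u, ∑ v, fab u v * (c1 η (gr D (x v)) * ∑ t ∈ Finset.range l,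
          cc u t * c2 ξ ζ (Sym (p t) (q t)) + c1 ζ (gr D (x u)) * ∑ t ∈ Finset.range l,
          cc v t * c2 ξ η (Sym (p t) (q t)))) := by
    rw [eq_neg_iff_add_eq_zero, ← add_assoc]
    exact e1.symm
  rw [neg_mul, ← mul_neg, ← e4, inv_mul_cancel_left₀ h1]

end

end Pool.Agent.N452.ON
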