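import Pool.Agent.W944.En.Hess

/-!
# Third derivatives of the results of a run
-/

set_option linter.unusedSectionVars false

namespace Pool.Agent.N452.ON

open Pool.Agent.W966.Mm Pool.Agent.H53R3 Pool.Agent.W944.En

section

variable {κ F : Type} [Field F]

/-- Third derivatives. -/
def Ts (D : κ → F → F) (z : F) : κ → κ → κ → F := fun i j r => D i (D j (D r z))

/-- Symmetric product of a vector and a matrix. -/
def S3 (y : κ → F) (h : κ → κ → F) : κ → κ → κ → F :=
  fun i j r => y i * h j r + y j * h i r + y r * h i j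

variable (D : κ → F → F) (hD : ∀ i, IsDer (D i))

include hD

lemma Ts_add (a b : F) : Ts D (a + b) = Ts D a + Ts D b := by
  funext i j r; simp only [Ts, Pi.add_apply, (hD _).add]

lemma Ts_zero : Ts D (0 : F) = 0 := by
  funext i j r; simp only [Ts, (hD r).zero, (hD j).zero, (hD i).zero, Pi.zero_apply]

lemma Ts_sum {ι : Type*} (s : Finset ι) (f : ι → F) :
    Ts D (∑ t ∈ s, f t) = ∑ t ∈ s, Ts D (f t) := by
  classical
  induction s using Finset.induction_on with
  | empty => simpa using Ts_zero D hD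
  | insert a s ha ih => rw [Finset.sum_insert ha, Ts_add D hD, ih, Finset.sum_insert ha]

lemma Ts_mul (a b : F) :
    Ts D (a * b) = b • Ts D a + a • Ts D b + S3 (fun i => D i b) (Hs D a) +
      S3 (fun i => D i a) (Hs D b) := by
  funext i j r
  simp only [Ts, S3, Hs, Pi.add_apply, Pi.smul_apply, smul_eq_mul, (hD _).mul, (hD _).add]
  ring

lemma Ts_of_Hs {z : F} (h : Hs D z = 0) : Ts D z = 0 := by
  funext i j r
  have : D j (D r z) = 0 := congrFun (congrFun h j) r
  simp only [Ts, this, (hD i).zero, Pi.zero_apply]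

variable {k : Type} [Field k] {n : ℕ} (φ : k →+* F) (hc : ∀ i (c : k), D i (φ c) = 0)

include hc

lemma Ts_const (c : k) : Ts D (φ c) = 0 := by
  funext i j r; simp only [Ts, hc, (hD j).zero, (hD i).zero, Pi.zero_apply]

lemma Ts_smul (c : k) (z : F) : Ts D (φ c * z) = φ c • Ts D z := by
  funext i j r
  simp only [Ts, Pi.smul_apply, smul_eq_mul, (hD _).mul, hc, zero_mul, zero_add]

lemma Ts_val (f : Lin k n) {X Y : Matrix (Fin n) (Fin n) F} (hX : ∀ a b, Hs D (X a b) = 0)
    (hY : ∀ a b, Hs D (Y a b) = 0) (l : ℕ) (G : ℕ → F) :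
    Ts D ((lmap φ f).val X Y l G) = ∑ s ∈ Finset.range l, φ (f.r s) • Ts D (G s) := by
  have hX' : ∀ a b, Ts D (X a b) = 0 := fun a b => Ts_of_Hs D hD (hX a b)
  have hY' : ∀ a b, Ts D (Y a b) = 0 := fun a b => Ts_of_Hs D hD (hY a b)
  unfold Lin.val
  simp only [lmap]
  rw [Ts_add D hD, Ts_add D hD, Ts_const D hD φ hc, Ts_sum D hD, Ts_sum D hD]
  simp only [Ts_sum D hD, Ts_add D hD, Ts_smul D hD φ hc, hX', hY', smul_zero, add_zero,
    Finset.sum_const_zero, zero_add]

/-- The linear map `h ↦ S3 y h`. -/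
def S3r (y : κ → F) : (κ → κ → F) →ₗ[F] (κ → κ → κ → F) where
  toFun h := S3 y h
  map_add' h h' := by
    funext i j r; simp only [S3, Pi.add_apply]; ring
  map_smul' c h := by
    funext i j r; simp only [S3, Pi.smul_apply, smul_eq_mul, RingHom.id_apply]; ring

/-- The linear map `y ↦ S3 y h`. -/
def S3l (h : κ → κ → F) : (κ → F) →ₗ[F] (κ → κ → κ → F) where
  toFun y := S3 y h
  map_add' y y' := by
    funext i j r; simp only [S3, Pi.add_apply]; ring
  map_smul' c y := by
    funext i j r; simp only [S3, Pi.smul_apply, smul_eq_mul, RingHom.id_apply]; ring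

/-- **Third derivatives of the results of a run.** -/
theorem third_repr {X Y : Matrix (Fin n) (Fin n) F} (hX : ∀ a b, Hs D (X a b) = 0)
    (hY : ∀ a b, Hs D (Y a b) = 0) (l : ℕ) (G : ℕ → F)
    (hG : ∀ s < l, ∃ u v : Lin k n,
      G s = (lmap φ u).val X Y s G * (lmap φ v).val X Y s G ∨
      ((lmap φ v).val X Y s G ≠ 0 ∧ G s = (lmap φ u).val X Y s G / (lmap φ v).val X Y s G)) :
    ∃ p q : ℕ → κ → F, ∀ f : Lin k n,
      (∃ c : ℕ → F, Hs D ((lmap φ f).val X Y l G) =
        ∑ s ∈ Finset.range l, c s • Sym (p s) (q s)) ∧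
      ∃ y : ℕ → κ → F, Ts D ((lmap φ f).val X Y l G) =
        ∑ s ∈ Finset.range l, S3 (y s) (Sym (p s) (q s)) := by
  have hex : ∀ s, ∃ p q : κ → F, s < l →
      ∀ (Q : Submodule F (κ → κ → F)) (Q3 : Submodule F (κ → κ → κ → F)),
      (∀ f : Lin k n, Hs D ((lmap φ f).val X Y s G) ∈ Q) →
      (∀ f : Lin k n, Ts D ((lmap φ f).val X Y s G) ∈ Q3) →
      Sym p q ∈ Q → (∀ (y : κ → F), ∀ h ∈ Q, S3 y h ∈ Q3) →
      Hs D (G s) ∈ Q ∧ Ts D (G s) ∈ Q3 := by
    intro s
    by_cases hs : s < l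
    · obtain ⟨u, v, h | ⟨hv0, h⟩⟩ := hG s hs
      · refine ⟨fun i => D i ((lmap φ u).val X Y s G), fun i => D i ((lmap φ v).val X Y s G),
          fun _ Q Q3 hQ hQ3 hS hS3 => ?_⟩
        rw [h, Hs_mul D hD, Ts_mul D hD]
        exact ⟨Q.add_mem (Q.add_mem (Q.smul_mem _ (hQ u)) (Q.smul_mem _ (hQ v))) hS,
          Q3.add_mem (Q3.add_mem (Q3.add_mem (Q3.smul_mem _ (hQ3 u)) (Q3.smul_mem _ (hQ3 v)))
            (hS3 _ _ (hQ u))) (hS3 _ _ (hQ v))⟩
      · refine ⟨fun i => D i (G s), fun i => D i ((lmap φ v).val X Y s G),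
          fun _ Q Q3 hQ hQ3 hS hS3 => ?_⟩
        have hu' : (lmap φ u).val X Y s G = G s * (lmap φ v).val X Y s G := by
          rw [h, div_mul_cancel₀ _ hv0]
        have h2 := Hs_mul D hD (G s) ((lmap φ v).val X Y s G)
        have h3 := Ts_mul D hD (G s) ((lmap φ v).val X Y s G)
        rw [← hu'] at h2 h3
        have e2 : Hs D (G s) = ((lmap φ v).val X Y s G)⁻¹ • (Hs D ((lmap φ u).val X Y s G) -
            G s • Hs D ((lmap φ v).val X Y s G) -
            Sym (fun i => D i (G s)) (fun i => D i ((lmap φ v).val X Y s G))) := by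
          rw [h2]
          funext i j
          simp only [Pi.smul_apply, Pi.sub_apply, Pi.add_apply, smul_eq_mul]
          field_simp
          ring
        have hG2 : Hs D (G s) ∈ Q := by
          rw [e2]
          exact Q.smul_mem _ (Q.sub_mem (Q.sub_mem (hQ u) (Q.smul_mem _ (hQ v))) hS)
        have e3 : Ts D (G s) = ((lmap φ v).val X Y s G)⁻¹ • (Ts D ((lmap φ u).val X Y s G) -
            G s • Ts D ((lmap φ v).val X Y s G) -
            S3 (fun i => D i ((lmap φ v).val X Y s G)) (Hs D (G s)) -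
            S3 (fun i => D i (G s)) (Hs D ((lmap φ v).val X Y s G))) := by
          rw [h3]
          funext i j r
          simp only [Pi.smul_apply, Pi.sub_apply, Pi.add_apply, smul_eq_mul]
          field_simp
          ring
        refine ⟨hG2, ?_⟩
        rw [e3]
        exact Q3.smul_mem _ (Q3.sub_mem (Q3.sub_mem (Q3.sub_mem (hQ3 u)
          (Q3.smul_mem _ (hQ3 v))) (hS3 _ _ hG2)) (hS3 _ _ (hQ v)))
    · exact ⟨0, 0, fun h1 => absurd h1 hs⟩
  choose p q hpq using hex
  refine ⟨p, q, ?_⟩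
  set gen : ℕ → κ → κ → F := fun s => Sym (p s) (q s) with hgen
  set Q : Submodule F (κ → κ → F) := Submodule.span F (Set.range fun r : Fin l => gen r) with hQ
  let Λ : (Fin l → κ → F) →ₗ[F] (κ → κ → κ → F) :=
    ∑ r : Fin l, (S3l (gen r)) ∘ₗ LinearMap.proj r
  have hΛ : ∀ y, Λ y = ∑ r : Fin l, S3 (y r) (gen r) := by
    intro y
    simp only [Λ, LinearMap.sum_apply, LinearMap.comp_apply, LinearMap.proj_apply]
    rfl
  have hmem : ∀ s < l, gen s ∈ Q := fun s hs => Submodule.subset_span ⟨⟨s, hs⟩, rfl⟩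
  have hS3 : ∀ (y : κ → F), ∀ h ∈ Q, S3 y h ∈ LinearMap.range Λ := by
    classical
    intro y h hh
    have h1 : Q ≤ (LinearMap.range Λ).comap (S3r y) := by
      rw [hQ, Submodule.span_le]
      rintro _ ⟨r, rfl⟩
      refine ⟨Pi.single r y, ?_⟩
      rw [hΛ, Finset.sum_eq_single r]
      · rw [Pi.single_eq_same]; rfl
      · intro b _ hb
        rw [Pi.single_eq_of_ne hb]
        exact (S3l (gen b)).map_zero
      · intro h; exact absurd (Finset.mem_univ _) h
    exact h1 hh
  have hstep : ∀ s < l, Hs D (G s) ∈ Q ∧ Ts D (G s) ∈ LinearMap.range Λ := by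
    intro s
    induction s using Nat.strong_induction_on with
    | _ s ih =>
      intro hs
      refine hpq s hs Q (LinearMap.range Λ) (fun f => ?_) (fun f => ?_) (hmem s hs) hS3
      · rw [Hs_val D hD φ hc f hX hY]
        exact Q.sum_mem fun r hr => Q.smul_mem _
          (ih r (Finset.mem_range.mp hr) (by have := Finset.mem_range.mp hr; omega)).1
      · rw [Ts_val D hD φ hc f hX hY]
        exact (LinearMap.range Λ).sum_mem fun r hr => (LinearMap.range Λ).smul_mem _
          (ih r (Finset.mem_range.mp hr) (by have := Finset.mem_range.mp hr; omega)).2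
  intro f
  have hf : Hs D ((lmap φ f).val X Y l G) ∈ Q := by
    rw [Hs_val D hD φ hc f hX hY]
    exact Q.sum_mem fun r hr => Q.smul_mem _ (hstep r (Finset.mem_range.mp hr)).1
  have hf3 : Ts D ((lmap φ f).val X Y l G) ∈ LinearMap.range Λ := by
    rw [Ts_val D hD φ hc f hX hY]
    exact (LinearMap.range Λ).sum_mem fun r hr => (LinearMap.range Λ).smul_mem _
      (hstep r (Finset.mem_range.mp hr)).2
  constructor
  · obtain ⟨c, hc'⟩ := (Submodule.mem_span_range_iff_exists_fun F).mp hf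
    refine ⟨fun s => if h : s < l then c ⟨s, h⟩ else 0, ?_⟩
    rw [← hc', Finset.sum_range]
    refine Finset.sum_congr rfl fun s _ => ?_
    simp only [hgen, Fin.is_lt, dif_pos]
  · obtain ⟨y, hy⟩ := hf3
    refine ⟨fun s => if h : s < l then y ⟨s, h⟩ else 0, ?_⟩
    rw [← hy, hΛ, Finset.sum_range]
    refine Finset.sum_congr rfl fun s _ => ?_
    simp only [hgen, Fin.is_lt, dif_pos]

end

end Pool.Agent.N452.ON
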