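import Pool.Agent.N452.ON.Third

/-!
# Contractions and chain rules of order two and three
-/

set_option linter.unusedSectionVars false

namespace Pool.Agent.N452.ON

open Pool.Agent.W966.Mm Pool.Agent.H53R3 Pool.Agent.W944.En MvPolynomial

section

variable {κ F : Type} [Field F] [Fintype κ]

/-- Contraction of a vector. -/
def c1 (ξ : κ → F) : (κ → F) →ₗ[F] F where
  toFun a := ∑ i, ξ i * a i
  map_add' a b := by simp only [Pi.add_apply, mul_add, Finset.sum_add_distrib]
  map_smul' c a := by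
    simp only [Pi.smul_apply, smul_eq_mul, RingHom.id_apply, Finset.mul_sum]
    exact Finset.sum_congr rfl fun i _ => by ring

/-- Contraction of a matrix. -/
def c2 (ξ η : κ → F) : (κ → κ → F) →ₗ[F] F where
  toFun b := ∑ i, ∑ j, ξ i * η j * b i j
  map_add' a b := by simp only [Pi.add_apply, mul_add, Finset.sum_add_distrib]
  map_smul' c a := by
    simp only [Pi.smul_apply, smul_eq_mul, RingHom.id_apply, Finset.mul_sum]
    exact Finset.sum_congr rfl fun i _ => Finset.sum_congr rfl fun j _ => by ring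

/-- Contraction of a tensor. -/
def c3 (ξ η ζ : κ → F) : (κ → κ → κ → F) →ₗ[F] F where
  toFun t := ∑ i, ∑ j, ∑ r, ξ i * η j * ζ r * t i j r
  map_add' a b := by simp only [Pi.add_apply, mul_add, Finset.sum_add_distrib]
  map_smul' c a := by
    simp only [Pi.smul_apply, smul_eq_mul, RingHom.id_apply, Finset.mul_sum]
    exact Finset.sum_congr rfl fun i _ => Finset.sum_congr rfl fun j _ =>
      Finset.sum_congr rfl fun r _ => by ring

lemma c1_apply (ξ a : κ → F) : c1 ξ a = ∑ i, ξ i * a i := rfl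

lemma c2_apply (ξ η : κ → F) (b : κ → κ → F) : c2 ξ η b = ∑ i, ∑ j, ξ i * η j * b i j := rfl

lemma c3_apply (ξ η ζ : κ → F) (t : κ → κ → κ → F) :
    c3 ξ η ζ t = ∑ i, ∑ j, ∑ r, ξ i * η j * ζ r * t i j r := rfl

lemma c2_outer (ξ η a b : κ → F) : c2 ξ η (fun i j => a i * b j) = c1 ξ a * c1 η b := by
  rw [c2_apply, c1_apply, c1_apply, Finset.sum_mul_sum]
  exact Finset.sum_congr rfl fun i _ => Finset.sum_congr rfl fun j _ => by ring

lemma c2_outer' (ξ η a b : κ → F) : c2 ξ η (fun i j => a j * b i) = c1 η a * c1 ξ b := by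
  rw [mul_comm, ← c2_outer]
  congr 1
  funext i j
  exact mul_comm _ _

lemma c2_Sym (ξ η p q : κ → F) :
    c2 ξ η (Sym p q) = c1 ξ p * c1 η q + c1 η p * c1 ξ q := by
  have : Sym p q = (fun i j => p i * q j) + fun i j => p j * q i := rfl
  rw [this, map_add, c2_outer, c2_outer']

lemma c3_a (ξ η ζ a : κ → F) (b : κ → κ → F) :
    c3 ξ η ζ (fun i j r => a i * b j r) = c1 ξ a * c2 η ζ b := by
  rw [c3_apply, c1_apply, c2_apply, Finset.sum_mul]
  refine Finset.sum_congr rfl fun i _ => ?_
  rw [Finset.mul_sum]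
  refine Finset.sum_congr rfl fun j _ => ?_
  rw [Finset.mul_sum]
  exact Finset.sum_congr rfl fun r _ => by ring

lemma c3_b (ξ η ζ a : κ → F) (b : κ → κ → F) :
    c3 ξ η ζ (fun i j r => a j * b i r) = c1 η a * c2 ξ ζ b := by
  rw [c3_apply, c1_apply, c2_apply, Finset.sum_mul, Finset.sum_comm]
  refine Finset.sum_congr rfl fun j _ => ?_
  rw [Finset.mul_sum]
  refine Finset.sum_congr rfl fun i _ => ?_
  rw [Finset.mul_sum]
  exact Finset.sum_congr rfl fun r _ => by ring

lemma c3_c (ξ η ζ a : κ → F) (b : κ → κ → F) :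
    c3 ξ η ζ (fun i j r => a r * b i j) = c1 ζ a * c2 ξ η b := by
  rw [c3_apply, c1_apply, c2_apply, mul_comm, Finset.sum_mul]
  refine Finset.sum_congr rfl fun i _ => ?_
  rw [Finset.sum_mul]
  refine Finset.sum_congr rfl fun j _ => ?_
  rw [Finset.mul_sum]
  exact Finset.sum_congr rfl fun r _ => by ring

lemma c3_S3 (ξ η ζ y : κ → F) (h : κ → κ → F) : c3 ξ η ζ (S3 y h) =
    c1 ξ y * c2 η ζ h + c1 η y * c2 ξ ζ h + c1 ζ y * c2 ξ η h := by
  have : S3 y h = (fun i j r => y i * h j r) + (fun i j r => y j * h i r) +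
      fun i j r => y r * h i j := rfl
  rw [this, map_add, map_add, c3_a, c3_b, c3_c]

end

section

variable {κ F k ι : Type} [Field F] [Field k] [Algebra k F] [Fintype ι] (D : κ → F → F)
  (hD : ∀ i, IsDer (D i)) (hc : ∀ i (c : k), D i (algebraMap k F c) = 0) (x : ι → F)
  (f : MvPolynomial ι k)

include hD hc

lemma chain1 (i : κ) : D i (aeval x f) = ∑ a, aeval x (pderiv a f) * D i (x a) :=
  chain D hD (algebraMap k F) hc hc x f i

/-- The chain rule of order two. -/
lemma chain2 : Hs D (aeval x f) = ∑ a, aeval x (pderiv a f) • Hs D (x a) +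
    ∑ a, ∑ b, aeval x (pderiv b (pderiv a f)) • (fun i j => D i (x b) * D j (x a)) := by
  funext i j
  simp only [Hs, Pi.add_apply, Finset.sum_apply, Pi.smul_apply, smul_eq_mul]
  rw [chain1 D hD hc x f j, (hD i).sum, ← Finset.sum_add_distrib]
  refine Finset.sum_congr rfl fun a _ => ?_
  rw [(hD i).mul, chain1 D hD hc x _ i, Finset.sum_mul, add_comm]
  congr 1
  exact Finset.sum_congr rfl fun b _ => by ring

/-- The chain rule of order three. -/
lemma chain3 : Ts D (aeval x f) = ∑ a, aeval x (pderiv a f) • Ts D (x a) +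
    ∑ a, ∑ b, aeval x (pderiv b (pderiv a f)) • ((fun i j r => D i (x b) * Hs D (x a) j r) +
      (fun i j r => D j (x b) * Hs D (x a) i r) + fun i j r => D r (x a) * Hs D (x b) i j) +
    ∑ a, ∑ b, ∑ c, aeval x (pderiv c (pderiv b (pderiv a f))) •
      (fun i j r => D i (x c) * (D j (x b) * D r (x a))) := by
  funext i j r
  have e1 := congrFun (congrFun (chain2 D hD hc x f) j) r
  simp only [Hs, Pi.add_apply, Finset.sum_apply, Pi.smul_apply, smul_eq_mul] at e1
  simp only [Ts, Pi.add_apply, Finset.sum_apply, Pi.smul_apply, smul_eq_mul]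
  rw [e1, (hD i).add, (hD i).sum, (hD i).sum]
  simp only [(hD i).sum, (hD i).mul]
  simp only [chain1 D hD hc x _ i, Finset.sum_mul, Finset.sum_add_distrib, mul_add, Hs]
  have e2 : ∀ a, ∑ b, aeval x (pderiv b (pderiv a f)) * D i (x b) * D j (D r (x a)) =
      ∑ b, aeval x (pderiv b (pderiv a f)) * (D i (x b) * D j (D r (x a))) :=
    fun a => Finset.sum_congr rfl fun b _ => by ring
  have e3 : ∀ a b, ∑ c, aeval x (pderiv c (pderiv b (pderiv a f))) * D i (x c) *
      (D j (x b) * D r (x a)) = ∑ c, aeval x (pderiv c (pderiv b (pderiv a f))) *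
      (D i (x c) * (D j (x b) * D r (x a))) :=
    fun a b => Finset.sum_congr rfl fun c _ => by ring
  have e4 : ∀ a, ∑ b, aeval x (pderiv b (pderiv a f)) * (D i (D j (x b)) * D r (x a)) =
      ∑ b, aeval x (pderiv b (pderiv a f)) * (D r (x a) * D i (D j (x b))) :=
    fun a => Finset.sum_congr rfl fun b _ => by ring
  simp only [e2, e3, e4]
  ring

end

end Pool.Agent.N452.ON
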