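import Pool.Agent.N452.ON.Main
import Pool.Agent.W944.En.Sharp

/-!
# One number: upper bounds
-/

set_option linter.unusedSectionVars false

namespace Pool.Agent.N452.ON

open Pool.Agent.W966.Mm Pool.Agent.H515R2.MMR Pool.Agent.W944.En Module MvPolynomial

lemma eval_quad {n : ℕ} (c : Matrix (Fin n × Fin n) (Fin n × Fin n) ℂ) (v : Fin n × Fin n → ℂ) :
    eval v (quad c) = ∑ p, v p * ∑ q, c p q * v q := by
  simp only [quad, map_sum, map_mul, eval_C, eval_X, Finset.mul_sum]
  exact Finset.sum_congr rfl fun p _ => Finset.sum_congr rfl fun q _ => by ring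

lemma hessM_quad {n : ℕ} (c : Matrix (Fin n × Fin n) (Fin n × Fin n) ℂ)
    (C₀ : Matrix (Fin n) (Fin n) ℂ) : hessM (quad c) C₀ = c + c.transpose := by
  classical
  refine Matrix.ext fun a b => ?_
  have hs : ∀ x y : Fin n × Fin n, (Pi.single x 1 : Fin n × Fin n → MvPolynomial
      (Fin n × Fin n) ℂ) y = if x = y then 1 else 0 := by
    intro x y
    rw [Pi.single_apply]
    exact if_congr eq_comm rfl rfl
  have e0 : ∀ p q : Fin n × Fin n, pderiv a (C (c p q) * (X p * X q)) =
        (if a = q then C (c p q) * X p else 0) + if a = p then C (c p q) * X q else 0 := by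
    intro p q
    rw [pderiv_C_mul, pderiv_mul, pderiv_X, pderiv_X, hs, hs]
    split_ifs <;> ring
  have h1 : pderiv a (quad c) = ∑ q, C (c a q + c q a) * X q := by
    have e3 : ∑ x, ∑ y, (if a = x then C (c x y) * (X y : MvPolynomial (Fin n × Fin n) ℂ)
        else 0) = ∑ y, C (c a y) * X y := by
      rw [Finset.sum_eq_single a]
      · simp
      · intro x _ hx
        simp [Ne.symm hx]
      · intro h; exact absurd (Finset.mem_univ _) h
    rw [quad]
    simp only [map_sum, e0]
    simp only [Finset.sum_add_distrib, Finset.sum_ite_eq, Finset.mem_univ, if_true]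
    rw [e3, ← Finset.sum_add_distrib]
    refine Finset.sum_congr rfl fun q _ => ?_
    rw [map_add]
    ring
  have h2 : pderiv b (∑ q, C (c a q + c q a) * X q) = C (c a b + c b a) := by
    have e4 : ∀ q : Fin n × Fin n, pderiv b (C (c a q + c q a) * X q) =
        if b = q then C (c a q + c q a) else 0 := by
      intro q
      rw [pderiv_C_mul, pderiv_X, hs]
      split_ifs <;> ring
    rw [map_sum]
    simp only [e4, Finset.sum_ite_eq, Finset.mem_univ, if_true]
  rw [hessM, Matrix.of_apply, h1, h2, eval_C]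
  rfl

section

variable {n s : ℕ}

/-- A linear combination of the results. -/
lemma val_res (w : ℕ → ℂ) (A B : Matrix (Fin n) (Fin n) ℂ) (l : ℕ) (g : ℕ → ℂ) :
    (⟨0, 0, 0, w⟩ : Lin ℂ n).val A B l g = ∑ m ∈ Finset.range l, w m * g m := by
  simp only [Lin.val, Pi.zero_apply, zero_mul, add_zero, Finset.sum_const_zero, zero_add]

lemma mulN_can' {A B : Matrix (Fin n) (Fin n) ℂ} {E : (Fin s → ℂ) → Prop} {f h : ℕ → Lin ℂ n}
    {F G : ℕ → ℂ} {t : ETree ℂ n s} {Q r0 : ℕ} {v : ℕ → ℂ}
    (hf : ∀ i l g, r0 ≤ l → (∀ m < r0, g m = v m) → (f i).val A B l g = F i)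
    (hh : ∀ i l g, r0 ≤ l → (∀ m < r0, g m = v m) → (h i).val A B l g = G i) :
    ∀ (r i : ℕ) (g : ℕ → ℂ) (L : ℕ), r0 ≤ i → (∀ m < r0, g m = v m) →
      ((mulN f h t r i).Can A B E i g (L + r) Q ↔
      t.Can A B E (i + r) (fun m => if i ≤ m ∧ m < i + r then F m * G m else g m) L Q) := by
  intro r
  induction r with
  | zero =>
    intro i g L _ _
    have e : (fun m => if i ≤ m ∧ m < i + 0 then F m * G m else g m) = g := by
      funext m
      rw [if_neg (by omega)]
    rw [e]
    exact Iff.rfl
  | succ r ih =>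
    intro i g L hi hg
    have hg' : ∀ m < r0, Function.update g i (F i * G i) m = v m := by
      intro m hm
      rw [Function.update_of_ne (by omega)]
      exact hg m hm
    have e1 : (mulN f h t (r + 1) i).Can A B E i g (L + (r + 1)) Q ↔
        (mulN f h t r (i + 1)).Can A B E (i + 1) (Function.update g i (F i * G i)) (L + r) Q := by
      have : (mulN f h t (r + 1) i).Can A B E i g (L + (r + 1)) Q ↔ 0 < L + (r + 1) ∧
        (mulN f h t r (i + 1)).Can A B E (i + 1) (Function.update g i
          ((f i).val A B i g * (h i).val A B i g)) (L + (r + 1) - 1) Q := Iff.rfl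
      rw [this, hf i i g hi hg, hh i i g hi hg]
      have e2 : L + (r + 1) - 1 = L + r := by omega
      rw [e2]
      exact ⟨fun h => h.2, fun h => ⟨by omega, h⟩⟩
    rw [e1, ih _ _ _ (by omega) hg']
    have e3 : i + 1 + r = i + (r + 1) := by omega
    have e4 : (fun m => if i + 1 ≤ m ∧ m < i + 1 + r then F m * G m else
        Function.update g i (F i * G i) m) =
        fun m => if i ≤ m ∧ m < i + (r + 1) then F m * G m else g m := by
      funext m
      by_cases hm : m = i
      · subst hm
        rw [if_neg (by omega), if_pos (by omega), Function.update_self]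
      · rw [Function.update_of_ne hm]
        by_cases h1 : i + 1 ≤ m ∧ m < i + 1 + r
        · rw [if_pos h1, if_pos (by omega)]
        · rw [if_neg h1, if_neg (by omega)]
    rw [e4, e3]

end

/-- **Computing a quadratic form of the product.** -/
theorem quad_upper {n r : ℕ} (hnr : HasRank n r)
    (c : Matrix (Fin n × Fin n) (Fin n × Fin n) ℂ) :
    ∃ t : ETree ℂ n 1, ∀ (A B : Matrix (Fin n) (Fin n) ℂ) (E : (Fin 1 → ℂ) → Prop),
      t.Can A B E 0 0 (n * n + r) 0 ↔ E fun _ => eval (fun p => (A * B) p.1 p.2) (quad c) := by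
  classical
  obtain ⟨f, g, h, H⟩ := hasRestrRank_of_hasRank hnr (⊤ : Submodule ℂ (Mat n)) ⊤ ⊤
  let lf : ℕ → Lin ℂ n := fun i => ⟨0, fun x y => if hi : i < r then
    f ⟨i, hi⟩ (Matrix.single x y 1) else 0, 0, 0⟩
  let lg : ℕ → Lin ℂ n := fun i => ⟨0, 0, fun x y => if hi : i < r then
    g ⟨i, hi⟩ (Matrix.single x y 1) else 0, 0⟩
  -- the coefficients of the entries of the product
  let w : Fin n × Fin n → ℕ → ℂ := fun p i => if hi : i < r then
    h ⟨i, hi⟩ (Matrix.single p.2 p.1 1) else 0
  let u : ℕ → Fin n × Fin n → ℂ := fun i p =>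
    if hi : i - r < n * n then (if finProdFinEquiv.symm ⟨i - r, hi⟩ = p then 1 else 0) else 0
  let lf2 : ℕ → Lin ℂ n := fun i => ⟨0, 0, 0, fun m => ∑ p, u i p * w p m⟩
  let lg2 : ℕ → Lin ℂ n := fun i => ⟨0, 0, 0, fun m => ∑ p, u i p * ∑ q, c p q * w q m⟩
  let M : Fin 1 → Lin ℂ n := fun _ => ⟨0, 0, 0, fun m => if r ≤ m then 1 else 0⟩
  let t2 : ETree ℂ n 1 := mulN lf2 lg2 (.output M) (n * n) r
  let t : ETree ℂ n 1 := mulN lf lg t2 r 0
  have hlf : ∀ (A B : Matrix (Fin n) (Fin n) ℂ) i l g', (lf i).val A B l g' =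
      if hi : i < r then f ⟨i, hi⟩ A else 0 := by
    intro A B i l g'
    by_cases hi : i < r
    · simp only [lf, Lin.val, hi, dif_pos, Pi.zero_apply, zero_mul, add_zero, zero_add,
        Finset.sum_const_zero]
      exact (lin_coord _ A).symm
    · simp [lf, Lin.val, hi]
  have hlg : ∀ (A B : Matrix (Fin n) (Fin n) ℂ) i l g', (lg i).val A B l g' =
      if hi : i < r then g ⟨i, hi⟩ B else 0 := by
    intro A B i l g'
    by_cases hi : i < r
    · simp only [lg, Lin.val, hi, dif_pos, Pi.zero_apply, zero_mul, add_zero, zero_add,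
        Finset.sum_const_zero]
      exact (lin_coord _ B).symm
    · simp [lg, Lin.val, hi]
  have hout : ∀ (A B : Matrix (Fin n) (Fin n) ℂ) (E : (Fin 1 → ℂ) → Prop),
      t.Can A B E 0 0 (n * n + r) 0 ↔
        E fun _ => eval (fun p => (A * B) p.1 p.2) (quad c) := by
    intro A B E
    set v : ℕ → ℂ := fun m => if 0 ≤ m ∧ m < r then
      (if hi : m < r then f ⟨m, hi⟩ A else 0) * (if hi : m < r then g ⟨m, hi⟩ B else 0)
      else (0 : ℕ → ℂ) m with hv
    have h1 := mulN_can (E := E) (t := t2) (Q := 0) (hlf A B) (hlg A B) r 0 0 (n * n)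
    rw [zero_add] at h1
    show (mulN lf lg t2 r 0).Can A B E 0 0 (n * n + r) 0 ↔ _
    rw [h1]
    -- the entries
    have hentry : ∀ p : Fin n × Fin n, ∑ m ∈ Finset.range r, w p m * v m =
        (A * B) p.1 p.2 := by
      intro p
      have h2 := H A trivial B trivial (Matrix.single p.2 p.1 1) trivial
      rw [Matrix.trace_mul_comm, Matrix.trace_single_mul, one_smul] at h2
      rw [h2, Finset.sum_range]
      refine Finset.sum_congr rfl fun i _ => ?_
      simp only [w, hv, Fin.is_lt, dif_pos, Nat.zero_le, true_and, zero_add, if_true, Fin.eta]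
      ring
    have hres : ∀ (l : ℕ) (g' : ℕ → ℂ) (p : Fin n × Fin n), r ≤ l → (∀ m < r, g' m = v m) →
        ∑ m ∈ Finset.range l, w p m * g' m = (A * B) p.1 p.2 := by
      intro l g' p hl hg'
      rw [← hentry, ← Finset.sum_subset (Finset.range_subset_range.mpr hl)]
      · exact Finset.sum_congr rfl fun m hm => by rw [hg' m (Finset.mem_range.mp hm)]
      · intro m _ hm
        have : ¬ m < r := fun h => hm (Finset.mem_range.mpr h)
        simp only [w, this, dif_neg, not_false_eq_true, zero_mul]
    have hlf2 : ∀ i l g', r ≤ l → (∀ m < r, g' m = v m) → (lf2 i).val A B l g' =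
        ∑ p, u i p * (A * B) p.1 p.2 := by
      intro i l g' hl hg'
      simp only [lf2]
      rw [val_res]
      simp only [Finset.sum_mul]
      rw [Finset.sum_comm]
      refine Finset.sum_congr rfl fun p _ => ?_
      rw [← hres l g' p hl hg', Finset.mul_sum]
      exact Finset.sum_congr rfl fun m _ => by ring
    have hlg2 : ∀ i l g', r ≤ l → (∀ m < r, g' m = v m) → (lg2 i).val A B l g' =
        ∑ p, u i p * ∑ q, c p q * (A * B) q.1 q.2 := by
      intro i l g' hl hg'
      simp only [lg2]
      rw [val_res]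
      simp only [Finset.sum_mul]
      rw [Finset.sum_comm]
      refine Finset.sum_congr rfl fun p _ => ?_
      have e1 : ∀ q, c p q * (A * B) q.1 q.2 =
          c p q * ∑ m ∈ Finset.range l, w q m * g' m := fun q => by rw [hres l g' q hl hg']
      simp only [e1, Finset.mul_sum, Finset.sum_mul]
      rw [Finset.sum_comm]
      exact Finset.sum_congr rfl fun q _ => Finset.sum_congr rfl fun m _ => by ring
    have h2 := mulN_can' (E := E) (t := .output M) (Q := 0) (r0 := r) (v := v) hlf2 hlg2
      (n * n) r v 0 le_rfl (fun m _ => rfl)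
    rw [zero_add] at h2
    show (mulN lf2 lg2 (.output M) (n * n) r).Can A B E r v (n * n) 0 ↔ _
    rw [h2]
    show E _ ↔ E _
    refine iff_of_eq (congrArg E (funext fun _ => ?_))
    simp only [M]
    rw [val_res, eval_quad, Finset.sum_range_add, Finset.sum_eq_zero (s := Finset.range r)
      (fun m hm => by
        rw [if_neg (by have := Finset.mem_range.mp hm; omega), zero_mul]), zero_add,
      Finset.sum_range]
    have hu : ∀ (j : Fin (n * n)) (p : Fin n × Fin n), u (r + j) p =
        if finProdFinEquiv.symm j = p then 1 else 0 := by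
      intro j p
      have e1 : r + (j : ℕ) - r = j := by omega
      simp only [u, e1, Fin.is_lt, dif_pos, Fin.eta]
    have e2 : ∀ j : Fin (n * n), (if r ≤ r + (j : ℕ) then (1 : ℂ) else 0) *
        (if r ≤ r + (j : ℕ) ∧ r + (j : ℕ) < r + n * n then
          (∑ p, u (r + j) p * (A * B) p.1 p.2) *
            ∑ p, u (r + j) p * ∑ q, c p q * (A * B) q.1 q.2 else v (r + j)) =
        (A * B) (finProdFinEquiv.symm j).1 (finProdFinEquiv.symm j).2 *
          ∑ q, c (finProdFinEquiv.symm j) q * (A * B) q.1 q.2 := by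
      intro j
      rw [if_pos (by omega), if_pos (by omega), one_mul]
      simp only [hu, ite_mul, one_mul, zero_mul, Finset.sum_ite_eq, Finset.mem_univ, if_true]
    rw [Finset.sum_congr rfl fun j _ => e2 j]
    exact Equiv.sum_comp finProdFinEquiv.symm fun p : Fin n × Fin n =>
      (A * B) p.1 p.2 * ∑ q, c p q * (A * B) q.1 q.2
  exact ⟨t, hout⟩

end Pool.Agent.N452.ON
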